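import Pool.Agent.helper16.MF.Sub
import Pool.Agent.helper35.MF.Conn

set_option autoImplicit false

/-!
# MP_141f81, Section 7b: the pair of norms of a sub-structure

`s : X → G` letters in a group of exponent two, `B' r ⊆ B r` the balls of two norms, `P` a finite set of letters
(`n ≤ |P| a`).  Given: words of three and of five letters of `P` fall in few `B'`-classes (`cov3`, `cov5`), consistency
`cons` (few letters of `P` in a `B`-ball), `D` with few `B`-classes of `D + P` (`covD`).  Then the set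
`Ds = 2P + span F` is a coarse set for `B'`, covers `D`, and has the local count: `Pair B B' D Ds`.
-/

namespace Pool.Agent.helper71.MF7b

open Pool.Agent.helper16.MF

/-- maximal separated sets -/
theorem max_sep {α : Type*} (S : Set α) (cl : α → α → Prop) (hsymm : ∀ x y, cl x y → cl y x) (M : ℕ)
    (h : ∀ F : Finset α, (∀ x ∈ F, x ∈ S) → (∀ x ∈ F, ∀ y ∈ F, x ≠ y → ¬ cl x y) → F.card ≤ M) :
    ∃ F : Finset α, F.card ≤ M ∧ (∀ x ∈ F, x ∈ S) ∧ (∀ x ∈ F, ∀ y ∈ F, x ≠ y → ¬ cl x y) ∧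
      ∀ x ∈ S, ∃ f ∈ F, f = x ∨ cl x f := by
  classical
  let Q : ℕ → Prop := fun n => ∃ F : Finset α, F.card = n ∧ (∀ x ∈ F, x ∈ S) ∧
    (∀ x ∈ F, ∀ y ∈ F, x ≠ y → ¬ cl x y)
  have hQ : ∀ n, Q n → n ≤ M := by
    rintro n ⟨F, rfl, h1, h2⟩
    exact h F h1 h2
  have hQ0 : Q 0 := ⟨∅, by simp, by simp, by simp⟩
  obtain ⟨F, hF, h1, h2⟩ := Nat.findGreatest_spec (P := Q) (Nat.zero_le M) hQ0
  refine ⟨F, ?_, h1, h2, fun x hx => ?_⟩
  · rw [hF]
    exact Nat.findGreatest_le _
  · by_contra hcon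
    push Not at hcon
    have hxF : x ∉ F := fun hxF => (hcon x hxF).1 rfl
    have h3 : Q (Nat.findGreatest Q M + 1) := by
      refine ⟨insert x F, by rw [Finset.card_insert_of_notMem hxF, hF], fun y hy => ?_,
        fun y hy z hz hne => ?_⟩
      · rcases Finset.mem_insert.mp hy with rfl | hy
        · exact hx
        · exact h1 y hy
      · rcases Finset.mem_insert.mp hy with hy1 | hy1
        · rcases Finset.mem_insert.mp hz with hz1 | hz1
          · exact absurd (hy1.trans hz1.symm) hne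
          · rw [hy1]
            exact (hcon z hz1).2
        · rcases Finset.mem_insert.mp hz with hz1 | hz1
          · rw [hz1]
            exact fun h5 => (hcon y hy1).2 (hsymm _ _ h5)
          · exact h2 y hy1 z hz1 hne
    have h4 := Nat.le_findGreatest (hQ _ h3) h3
    omega

variable {G X : Type*} [AddCommGroup G]

/-- the balls of an invariant norm -/
structure Nrm (B : ℕ → Set G) : Prop where
  zero : (0 : G) ∈ B 0
  mono : ∀ {r t : ℕ}, r ≤ t → B r ⊆ B t
  add : ∀ {r t : ℕ} {a b : G}, a ∈ B r → b ∈ B t → a + b ∈ B (r + t)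

theorem Nrm.zero_mem {B : ℕ → Set G} (hB : Nrm B) (r : ℕ) : (0 : G) ∈ B r := hB.mono (Nat.zero_le r) hB.zero

/-- words of `k` letters -/
def Wd (s : X → G) (P : Finset X) (k : ℕ) : Set G :=
  {g | ∃ l : List X, l.length = k ∧ (∀ x ∈ l, x ∈ P) ∧ (l.map s).sum = g}

/-- a large separated set of letters -/
theorem sep_letters (two : ∀ g : G, g + g = 0) {B : ℕ → Set G} (hB : Nrm B) (s : X → G) (P : Finset X)
    [DecidableEq X] (b c : ℕ)
    (cons : ∀ p ∈ P, ∀ Q : Finset X, Q ⊆ P → (∀ q ∈ Q, s p + s q ∈ B b) → Q.card ≤ c) :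
    ∃ Q : Finset X, Q ⊆ P ∧ (∀ p ∈ Q, ∀ q ∈ Q, p ≠ q → s p + s q ∉ B b) ∧ P.card ≤ Q.card * c := by
  classical
  obtain ⟨Q, _, hQP, hQs, hQm⟩ := max_sep (↑P : Set X) (fun p q => s p + s q ∈ B b)
    (fun x y h => by rwa [add_comm]) P.card (fun F hF _ => Finset.card_le_card (fun x hx => hF x hx))
  have hQP' : Q ⊆ P := fun x hx => hQP x hx
  refine ⟨Q, hQP', hQs, ?_⟩
  have h1 : P ⊆ Q.biUnion fun f => P.filter fun q => s f + s q ∈ B b := by
    intro x hx
    obtain ⟨f, hf, hfx⟩ := hQm x hx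
    rw [Finset.mem_biUnion]
    refine ⟨f, hf, Finset.mem_filter.mpr ⟨hx, ?_⟩⟩
    rcases hfx with rfl | hfx
    · rw [two]
      exact hB.zero_mem b
    · rwa [add_comm]
  refine (Finset.card_le_card h1).trans ?_
  refine Finset.card_biUnion_le_card_mul _ _ _ fun f hf => ?_
  exact cons f (hQP' hf) _ (Finset.filter_subset _ _) fun q hq => (Finset.mem_filter.mp hq).2

/-- the size of a set with separated translates of `P` -/
theorem card_sep (two : ∀ g : G, g + g = 0) {B Bx : ℕ → Set G} (hB : Nrm B) (hBx : Nrm Bx)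
    (hle : ∀ r, Bx r ⊆ B r) (s : X → G) (P : Finset X) [DecidableEq X] (b c Kn : ℕ)
    (cons : ∀ p ∈ P, ∀ Q : Finset X, Q ⊆ P → (∀ q ∈ Q, s p + s q ∈ B b) → Q.card ≤ c)
    (F : Finset G)
    (hF : ∀ f ∈ F, ∀ f' ∈ F, f ≠ f' → ∀ p ∈ P, ∀ p' ∈ P, f + s p + (f' + s p') ∉ Bx b)
    (hcov : ∀ W : Finset G, (∀ w ∈ W, ∃ f ∈ F, ∃ p ∈ P, w = f + s p) →
      (∀ w ∈ W, ∀ w' ∈ W, w ≠ w' → w + w' ∉ Bx b) → W.card ≤ Kn) :
    F.card * P.card ≤ Kn * c := by
  classical
  obtain ⟨Q, hQP, hQs, hQc⟩ := sep_letters two hB s P b c cons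
  have hinj : Set.InjOn (fun fq : G × X => fq.1 + s fq.2) (F ×ˢ Q : Finset (G × X)) := by
    rintro ⟨f, q⟩ h1 ⟨f', q'⟩ h2 h3
    rw [Finset.mem_coe, Finset.mem_product] at h1 h2
    dsimp only at h1 h2 h3
    have hff : f = f' := by
      by_contra hne
      have h4 := hF f h1.1 f' h2.1 hne q (hQP h1.2) q' (hQP h2.2)
      rw [h3, two] at h4
      exact h4 (hBx.zero_mem b)
    have hqq : q = q' := by
      by_contra hne
      have h4 := hQs q h1.2 q' h2.2 hne
      rw [hff] at h3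
      rw [add_left_cancel h3, two] at h4
      exact h4 (hB.zero_mem b)
    rw [hff, hqq]
  have hW := hcov ((F ×ˢ Q).image fun fq : G × X => fq.1 + s fq.2) (fun w hw => by
      obtain ⟨⟨f, q⟩, h1, rfl⟩ := Finset.mem_image.mp hw
      rw [Finset.mem_product] at h1
      exact ⟨f, h1.1, q, hQP h1.2, rfl⟩)
    (fun w hw w' hw' hne => by
      obtain ⟨⟨f, q⟩, h1, rfl⟩ := Finset.mem_image.mp hw
      obtain ⟨⟨f', q'⟩, h2, rfl⟩ := Finset.mem_image.mp hw'
      rw [Finset.mem_product] at h1 h2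
      dsimp only at h1 h2 hne ⊢
      by_cases hff : f = f'
      · subst hff
        have hqq : q ≠ q' := fun h3 => hne (by rw [h3])
        have h4 : f + s q + (f + s q') = s q + s q' + (f + f) := by abel
        rw [h4, two, add_zero]
        exact fun h5 => hQs q h1.2 q' h2.2 hqq (hle b h5)
      · exact hF f h1.1 f' h2.1 hff q (hQP h1.2) q' (hQP h2.2))
  rw [Finset.card_image_of_injOn hinj, Finset.card_product] at hW
  calc F.card * P.card ≤ F.card * (Q.card * c) := Nat.mul_le_mul_left _ hQc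
    _ = F.card * Q.card * c := by ring
    _ ≤ Kn * c := Nat.mul_le_mul_right _ hW

/-- the span of a finite set -/
theorem span_fin (two : ∀ g : G, g + g = 0) [DecidableEq G] (F : Finset G) :
    ∃ S : Finset G, S.card ≤ 2 ^ F.card ∧ (0 : G) ∈ S ∧ (∀ f ∈ F, f ∈ S) ∧ (∀ a ∈ S, ∀ b ∈ S, a + b ∈ S) ∧
      ∀ a ∈ S, ∃ A ⊆ F, a = ∑ x ∈ A, x := by
  obtain ⟨S, hS, hS0, hSE⟩ : ∃ S : Finset G, S.card ≤ 2 ^ F.card ∧ (∀ A ⊆ F, ∑ x ∈ A, x ∈ S) ∧
      ∀ a ∈ S, ∃ A ⊆ F, a = ∑ x ∈ A, x := by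
    refine ⟨F.powerset.image fun A => ∑ x ∈ A, x, ?_, fun A hA => ?_, fun a ha => ?_⟩
    · refine Finset.card_image_le.trans ?_
      rw [Finset.card_powerset]
    · exact Finset.mem_image.mpr ⟨A, Finset.mem_powerset.mpr hA, rfl⟩
    · obtain ⟨A, hA, rfl⟩ := Finset.mem_image.mp ha
      exact ⟨A, Finset.mem_powerset.mp hA, rfl⟩
  refine ⟨S, hS, by simpa using hS0 ∅ (Finset.empty_subset _), fun f hf => ?_, fun a ha b hb => ?_, hSE⟩
  · simpa using hS0 {f} (Finset.singleton_subset_iff.mpr hf)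
  · obtain ⟨A, hA, rfl⟩ := hSE a ha
    obtain ⟨C, hC, rfl⟩ := hSE b hb
    have h1 : ∑ x ∈ A, x + ∑ x ∈ C, x = ∑ x ∈ symmDiff A C, x := by
      have h2 : ∑ x ∈ A, x = ∑ x ∈ A \ C, x + ∑ x ∈ A ∩ C, x := by
        rw [← Finset.sum_union (Finset.disjoint_sdiff_inter A C), Finset.sdiff_union_inter]
      have h3 : ∑ x ∈ C, x = ∑ x ∈ C \ A, x + ∑ x ∈ A ∩ C, x := by
        rw [Finset.inter_comm, ← Finset.sum_union (Finset.disjoint_sdiff_inter C A), Finset.sdiff_union_inter]
      have h4 : ∑ x ∈ symmDiff A C, x = ∑ x ∈ A \ C, x + ∑ x ∈ C \ A, x := by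
        rw [← Finset.sum_union disjoint_sdiff_sdiff]
        rfl
      rw [h2, h3, h4]
      have h5 : ∑ x ∈ A \ C, x + ∑ x ∈ A ∩ C, x + (∑ x ∈ C \ A, x + ∑ x ∈ A ∩ C, x) =
          ∑ x ∈ A \ C, x + ∑ x ∈ C \ A, x + (∑ x ∈ A ∩ C, x + ∑ x ∈ A ∩ C, x) := by abel
      rw [h5, two, add_zero]
    rw [h1]
    refine hS0 _ ?_
    intro x hx
    rcases Finset.mem_symmDiff.mp hx with h2 | h2
    · exact hA h2.1
    · exact hC h2.1

open Classical in
/-- the letters `p` having a letter `q` with `e + p + q` small -/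
noncomputable def pop (s : X → G) (P : Finset X) (B' : ℕ → Set G) (b : ℕ) (e : G) : Finset X :=
  P.filter fun p => ∃ q ∈ P, e + (s p + s q) ∈ B' b

theorem pop_subset (s : X → G) (P : Finset X) (B' : ℕ → Set G) (b : ℕ) (e : G) : pop s P B' b e ⊆ P := by
  classical
  exact Finset.filter_subset _ _

/-- few elements are pairwise unpopular -/
theorem unpop_card (two : ∀ g : G, g + g = 0) {B B' : ℕ → Set G} (hB' : Nrm B')
    (hle : ∀ r, B' r ⊆ B r) (s : X → G) (P : Finset X) (hP : 0 < P.card) (b c M : ℕ)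
    (cons : ∀ p ∈ P, ∀ Q : Finset X, Q ⊆ P → (∀ q ∈ Q, s p + s q ∈ B (2 * b)) → Q.card ≤ c)
    (N : Finset G) (hN : N.card * c ≤ M * P.card) (I : Finset G)
    (hNet : ∀ f ∈ I, ∀ p ∈ P, ∃ z ∈ N, f + s p + z ∈ B' b)
    (hI : ∀ f ∈ I, ∀ f' ∈ I, f ≠ f' → 2 * M * (pop s P B' (2 * b) (f + f')).card ≤ P.card) :
    I.card ≤ 2 * M := by
  classical
  choose! z hzN hz using hNet
  -- for fixed `f'` and `z0` few letters
  have hfew : ∀ f' ∈ I, ∀ z0 : G, (P.filter fun p' => z f' p' = z0).card ≤ c := by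
    intro f' hf' z0
    rcases Finset.eq_empty_or_nonempty (P.filter fun p' => z f' p' = z0) with h0 | ⟨p0, hp0⟩
    · rw [h0, Finset.card_empty]
      exact Nat.zero_le _
    · rw [Finset.mem_filter] at hp0
      refine cons p0 hp0.1 _ (Finset.filter_subset _ _) fun q hq => ?_
      rw [Finset.mem_filter] at hq
      have h1 := hB'.add (hz f' hf' p0 hp0.1) (hz f' hf' q hq.1)
      rw [hp0.2, hq.2] at h1
      have h2 : f' + s p0 + z0 + (f' + s q + z0) = s p0 + s q + ((f' + f') + (z0 + z0)) := by abel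
      rw [h2, two, two, add_zero, add_zero, ← two_mul] at h1
      exact hle _ h1
  -- pairs
  have hpair : ∀ f ∈ I, ∀ f' ∈ I, ((P ×ˢ P).filter fun pq : X × X => z f pq.1 = z f' pq.2).card ≤
      (pop s P B' (2 * b) (f + f')).card * c := by
    intro f hf f' hf'
    have h1 : ((P ×ˢ P).filter fun pq : X × X => z f pq.1 = z f' pq.2) ⊆
        (pop s P B' (2 * b) (f + f')).biUnion fun p =>
          (P.filter fun p' => z f' p' = z f p).image fun p' => (p, p') := by
      rintro ⟨p, p'⟩ hpp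
      rw [Finset.mem_filter, Finset.mem_product] at hpp
      dsimp only at hpp
      rw [Finset.mem_biUnion]
      refine ⟨p, Finset.mem_filter.mpr ⟨hpp.1.1, p', hpp.1.2, ?_⟩,
        Finset.mem_image.mpr ⟨p', Finset.mem_filter.mpr ⟨hpp.1.2, hpp.2.symm⟩, rfl⟩⟩
      have h2 := hB'.add (hz f hf p hpp.1.1) (hz f' hf' p' hpp.1.2)
      rw [hpp.2] at h2
      have h3 : f + s p + z f' p' + (f' + s p' + z f' p') = f + f' + (s p + s p') + (z f' p' + z f' p') := by abel
      rw [h3, two, add_zero, ← two_mul] at h2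
      exact h2
    refine (Finset.card_le_card h1).trans ?_
    refine Finset.card_biUnion_le_card_mul _ _ _ fun p _ => ?_
    exact Finset.card_image_le.trans (hfew f' hf' _)
  -- double count
  let x : G → ℕ := fun z0 => ((I ×ˢ P).filter fun fp : G × X => z fp.1 fp.2 = z0).card
  have hsum : ∑ z0 ∈ N, x z0 = I.card * P.card := by
    rw [← Finset.card_product]
    exact (Finset.card_eq_sum_card_fiberwise (f := fun fp : G × X => z fp.1 fp.2) (s := I ×ˢ P) (t := N)
      (fun fp hfp => by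
        rw [Finset.mem_coe, Finset.mem_product] at hfp
        exact hzN _ hfp.1 _ hfp.2)).symm
  have hsq : ∑ z0 ∈ N, x z0 ^ 2 ≤
      ∑ f ∈ I, ∑ f' ∈ I, ((P ×ˢ P).filter fun pq : X × X => z f pq.1 = z f' pq.2).card := by
    have h1 : ∀ z0, x z0 ^ 2 = ∑ f ∈ I, ∑ f' ∈ I,
        ((P ×ˢ P).filter fun pq : X × X => z f pq.1 = z0 ∧ z f' pq.2 = z0).card := by
      intro z0
      have h2 : x z0 = ∑ f ∈ I, (P.filter fun p => z f p = z0).card := by
        show ((I ×ˢ P).filter fun fp : G × X => z fp.1 fp.2 = z0).card = _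
        rw [Finset.card_filter, Finset.sum_product]
        refine Finset.sum_congr rfl fun f _ => ?_
        rw [Finset.card_filter]
      rw [sq, h2, Finset.sum_mul_sum]
      refine Finset.sum_congr rfl fun f _ => Finset.sum_congr rfl fun f' _ => ?_
      rw [← Finset.card_product, ← Finset.filter_product]
    calc ∑ z0 ∈ N, x z0 ^ 2 = ∑ z0 ∈ N, ∑ f ∈ I, ∑ f' ∈ I,
          ((P ×ˢ P).filter fun pq : X × X => z f pq.1 = z0 ∧ z f' pq.2 = z0).card :=
            Finset.sum_congr rfl fun z0 _ => h1 z0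
      _ = ∑ f ∈ I, ∑ f' ∈ I, ∑ z0 ∈ N,
          ((P ×ˢ P).filter fun pq : X × X => z f pq.1 = z0 ∧ z f' pq.2 = z0).card := by
            rw [Finset.sum_comm]
            refine Finset.sum_congr rfl fun f _ => ?_
            rw [Finset.sum_comm]
      _ ≤ ∑ f ∈ I, ∑ f' ∈ I, ((P ×ˢ P).filter fun pq : X × X => z f pq.1 = z f' pq.2).card := by
            refine Finset.sum_le_sum fun f hf => Finset.sum_le_sum fun f' _ => ?_
            rw [← Finset.card_biUnion]
            · refine Finset.card_le_card ?_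
              intro pq hpq
              rw [Finset.mem_biUnion] at hpq
              obtain ⟨z0, _, h3⟩ := hpq
              rw [Finset.mem_filter] at h3 ⊢
              exact ⟨h3.1, h3.2.1.trans h3.2.2.symm⟩
            · intro z1 _ z2 _ hne
              rw [Function.onFun, Finset.disjoint_left]
              intro pq h3 h4
              rw [Finset.mem_filter] at h3 h4
              exact hne (h3.2.1.symm.trans h4.2.1)
  have hcs := sq_sum_le_card_mul_sum_sq (s := N) (f := x)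
  rw [hsum] at hcs
  -- bound of the pairs
  have hb : 2 * M * ∑ f ∈ I, ∑ f' ∈ I, (pop s P B' (2 * b) (f + f')).card ≤
      I.card * (2 * M * P.card) + I.card * (I.card * P.card) := by
    rw [Finset.mul_sum]
    have h1 : ∀ f ∈ I, 2 * M * ∑ f' ∈ I, (pop s P B' (2 * b) (f + f')).card ≤ 2 * M * P.card + I.card * P.card := by
      intro f hf
      rw [Finset.mul_sum, ← Finset.add_sum_erase I _ hf]
      refine Nat.add_le_add ?_ ?_
      · exact Nat.mul_le_mul_left _ (Finset.card_filter_le _ _)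
      · calc ∑ f' ∈ I.erase f, 2 * M * (pop s P B' (2 * b) (f + f')).card ≤ ∑ _f' ∈ I.erase f, P.card :=
              Finset.sum_le_sum fun f' hf' =>
                hI f hf f' (Finset.mem_of_mem_erase hf') (Finset.ne_of_mem_erase hf').symm
          _ = (I.erase f).card * P.card := by rw [Finset.sum_const, smul_eq_mul]
          _ ≤ I.card * P.card := Nat.mul_le_mul_right _ (Finset.card_le_card (Finset.erase_subset _ _))
    calc ∑ f ∈ I, 2 * M * ∑ f' ∈ I, (pop s P B' (2 * b) (f + f')).card ≤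
          ∑ _f ∈ I, (2 * M * P.card + I.card * P.card) := Finset.sum_le_sum h1
      _ = I.card * (2 * M * P.card) + I.card * (I.card * P.card) := by
          rw [Finset.sum_const, smul_eq_mul]
          ring
  have hmain : (I.card * P.card) ^ 2 ≤ M * P.card * ∑ f ∈ I, ∑ f' ∈ I, (pop s P B' (2 * b) (f + f')).card := by
    calc (I.card * P.card) ^ 2 ≤ N.card * ∑ z0 ∈ N, x z0 ^ 2 := hcs
      _ ≤ N.card * ∑ f ∈ I, ∑ f' ∈ I, (pop s P B' (2 * b) (f + f')).card * c := by
          refine Nat.mul_le_mul_left _ (hsq.trans ?_)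
          exact Finset.sum_le_sum fun f hf => Finset.sum_le_sum fun f' hf' => hpair f hf f' hf'
      _ = N.card * c * ∑ f ∈ I, ∑ f' ∈ I, (pop s P B' (2 * b) (f + f')).card := by
          simp_rw [← Finset.sum_mul]
          ring
      _ ≤ M * P.card * ∑ f ∈ I, ∑ f' ∈ I, (pop s P B' (2 * b) (f + f')).card := Nat.mul_le_mul_right _ hN
  -- conclusion
  rcases Nat.eq_zero_or_pos I.card with h0 | h0
  · rw [h0]
    exact Nat.zero_le _
  set σ := ∑ f ∈ I, ∑ f' ∈ I, (pop s P B' (2 * b) (f + f')).card with hσ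
  have h1 : 2 * (I.card * P.card) ^ 2 ≤ P.card * (I.card * (2 * M * P.card) + I.card * (I.card * P.card)) := by
    calc 2 * (I.card * P.card) ^ 2 ≤ 2 * (M * P.card * σ) := Nat.mul_le_mul_left _ hmain
      _ = P.card * (2 * M * σ) := by ring
      _ ≤ _ := Nat.mul_le_mul_left _ hb
  have h2 : I.card * P.card ^ 2 * I.card ≤ I.card * P.card ^ 2 * (2 * M) := by nlinarith
  exact Nat.le_of_mul_le_mul_left h2 (by positivity)

/-- the local count -/
theorem local_count (two : ∀ g : G, g + g = 0) {B B' : ℕ → Set G} (hB : Nrm B) (hB' : Nrm B')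
    (hle : ∀ r, B' r ⊆ B r) (s : X → G) (P : Finset X) (hP : 0 < P.card) (b c t M : ℕ)
    (cons : ∀ p ∈ P, ∀ Q : Finset X, Q ⊆ P → (∀ q ∈ Q, s p + s q ∈ B (2 * t + 2 * b)) → Q.card ≤ c)
    (F E : Finset G) (hF : F.card ≤ M)
    (hFE : ∀ e ∈ E, ∃ f ∈ F, P.card ≤ M * (pop s P B' b (e + f)).card)
    (hE : ∀ e ∈ E, e ∈ B t) (hEs : ∀ e ∈ E, ∀ e' ∈ E, e ≠ e' → e + e' ∉ B' (2 * b)) :
    E.card ≤ M * M * c := by
  classical
  have : Nonempty X := ⟨(Finset.card_pos.mp hP).choose⟩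
  choose! f hfF hf using hFE
  have h1 : E.card * P.card ≤ M * ∑ e ∈ E, (pop s P B' b (e + f e)).card := by
    rw [Finset.mul_sum]
    calc E.card * P.card = ∑ _e ∈ E, P.card := by rw [Finset.sum_const, smul_eq_mul]
      _ ≤ ∑ e ∈ E, M * (pop s P B' b (e + f e)).card := Finset.sum_le_sum fun e he => hf e he
  have h2 : ∑ e ∈ E, (pop s P B' b (e + f e)).card ≤ P.card * (M * c) := by
    have h3 : ∑ e ∈ E, (pop s P B' b (e + f e)).card =
        ∑ p ∈ P, (E.filter fun e => p ∈ pop s P B' b (e + f e)).card := by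
      have h4 : ∀ e ∈ E, (pop s P B' b (e + f e)).card = ∑ p ∈ P, if p ∈ pop s P B' b (e + f e) then 1 else 0 := by
        intro e _
        rw [Finset.sum_ite_mem, Finset.sum_const, smul_eq_mul, mul_one,
          Finset.inter_eq_right.mpr (pop_subset _ _ _ _ _)]
      rw [Finset.sum_congr rfl h4, Finset.sum_comm]
      refine Finset.sum_congr rfl fun p _ => ?_
      rw [Finset.card_filter]
    rw [h3]
    have h5 : ∀ p ∈ P, (E.filter fun e => p ∈ pop s P B' b (e + f e)).card ≤ M * c := by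
      intro p hp
      have h6 : (E.filter fun e => p ∈ pop s P B' b (e + f e)) ⊆
          F.biUnion fun g => E.filter fun e => p ∈ pop s P B' b (e + f e) ∧ f e = g := by
        intro e he
        rw [Finset.mem_filter] at he
        rw [Finset.mem_biUnion]
        exact ⟨f e, hfF e he.1, Finset.mem_filter.mpr ⟨he.1, he.2, rfl⟩⟩
      refine (Finset.card_le_card h6).trans ?_
      refine (Finset.card_biUnion_le_card_mul _ _ c fun g _ => ?_).trans (Nat.mul_le_mul_right _ hF)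
      set E' := E.filter fun e => p ∈ pop s P B' b (e + f e) ∧ f e = g with hE'
      have h7 : ∀ e ∈ E', ∃ q ∈ P, e + g + (s p + s q) ∈ B' b := by
        intro e he
        rw [hE', Finset.mem_filter] at he
        have h8 := he.2.1
        rw [pop, Finset.mem_filter, he.2.2] at h8
        exact h8.2
      choose! q hqP hq using h7
      have hinj : Set.InjOn q (E' : Set G) := by
        intro e he e' he' hqq
        by_contra hne
        have h8 := hB'.add (hq e he) (hq e' he')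
        rw [hqq] at h8
        have h9 : e + g + (s p + s (q e')) + (e' + g + (s p + s (q e'))) =
            e + e' + ((g + g) + (s p + s p) + (s (q e') + s (q e'))) := by abel
        rw [h9] at h8
        simp only [two, add_zero] at h8
        rw [← two_mul] at h8
        exact hEs e (Finset.mem_filter.mp he).1 e' (Finset.mem_filter.mp he').1 hne h8
      rw [← Finset.card_image_of_injOn hinj]
      rcases Finset.eq_empty_or_nonempty E' with h10 | ⟨e0, he0⟩
      · rw [h10, Finset.image_empty, Finset.card_empty]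
        exact Nat.zero_le _
      · refine cons (q e0) (hqP e0 he0) _ (fun r hr => ?_) (fun r hr => ?_)
        · obtain ⟨e, he, rfl⟩ := Finset.mem_image.mp hr
          exact hqP e he
        · obtain ⟨e, he, rfl⟩ := Finset.mem_image.mp hr
          have h11 := hB.add (hB.add (hle _ (hq e0 he0)) (hle _ (hq e he)))
            (hB.add (hE e0 (Finset.mem_filter.mp he0).1) (hE e (Finset.mem_filter.mp he).1))
          have h12 : e0 + g + (s p + s (q e0)) + (e + g + (s p + s (q e))) + (e0 + e) =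
              s (q e0) + s (q e) + ((g + g) + (s p + s p) + (e0 + e0) + (e + e)) := by abel
          rw [h12] at h11
          simp only [two, add_zero] at h11
          exact hB.mono (by omega) h11
    calc ∑ p ∈ P, (E.filter fun e => p ∈ pop s P B' b (e + f e)).card ≤ ∑ _p ∈ P, M * c := Finset.sum_le_sum h5
      _ = P.card * (M * c) := by rw [Finset.sum_const, smul_eq_mul]
  have h3 : P.card * E.card ≤ P.card * (M * M * c) := by
    calc P.card * E.card = E.card * P.card := mul_comm _ _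
      _ ≤ M * ∑ e ∈ E, (pop s P B' b (e + f e)).card := h1
      _ ≤ M * (P.card * (M * c)) := Nat.mul_le_mul_left _ h2
      _ = P.card * (M * M * c) := by ring
  exact Nat.le_of_mul_le_mul_left h3 hP

/-! ### the constants -/

/-- bound for `F` -/
def cF (a b5 K5 : ℕ) (C : ℕ → ℕ) : ℕ := K5 * a * C b5

/-- bound for the pairwise unpopular sets, divided by two -/
def cM (a b3 b5 K3 K5 : ℕ) (C : ℕ → ℕ) : ℕ := 2 ^ cF a b5 K5 C * K3 * a * C (2 * b3)

/-- the local count -/
def cm (a b3 b5 K3 K5 : ℕ) (C : ℕ → ℕ) (t : ℕ) : ℕ :=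
  (2 * cM a b3 b5 K3 K5 C) * (2 * cM a b3 b5 K3 K5 C) * C (2 * t + 4 * b3)

/-- the pair of norms of a sub-structure -/
theorem exists_pair (two : ∀ g : G, g + g = 0) {B B' : ℕ → Set G} (hB : Nrm B) (hB' : Nrm B')
    (hle : ∀ r, B' r ⊆ B r) (s : X → G) (P : Finset X) (D : Set G) (n a b3 b5 K3 K5 Kd : ℕ) (C : ℕ → ℕ)
    (hn : 0 < n) (hP : n ≤ P.card * a)
    (cons : ∀ b, ∀ p ∈ P, ∀ Q : Finset X, Q ⊆ P → (∀ q ∈ Q, s p + s q ∈ B b) → Q.card ≤ C b)
    (cov3 : ∀ W : Finset G, (∀ w ∈ W, w ∈ Wd s P 3) → (∀ w ∈ W, ∀ w' ∈ W, w ≠ w' → w + w' ∉ B' b3) →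
      W.card ≤ K3 * n)
    (cov5 : ∀ W : Finset G, (∀ w ∈ W, w ∈ Wd s P 5) → (∀ w ∈ W, ∀ w' ∈ W, w ≠ w' → w + w' ∉ B' b5) →
      W.card ≤ K5 * n)
    (covD : ∀ W : Finset G, (∀ w ∈ W, ∃ f ∈ D, ∃ p ∈ P, w = f + s p) →
      (∀ w ∈ W, ∀ w' ∈ W, w ≠ w' → w + w' ∉ B b3) → W.card ≤ Kd * n) :
    ∃ Ds : Set G, (0 : G) ∈ Ds ∧
      (∀ e ∈ Ds, ∃ l : List X, l.length ≤ 2 + 4 * cF a b5 K5 C ∧ Even l.length ∧ (∀ x ∈ l, x ∈ P) ∧
        (l.map s).sum = e) ∧
      (∀ p ∈ P, ∀ q ∈ P, s p + s q ∈ Ds) ∧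
      Pair B B' D Ds (b3 + b5) (4 * b3) (Kd * a * C b3) (cm a b3 b5 K3 K5 C) := by
  classical
  have hPpos : 0 < P.card := by
    rcases Nat.eq_zero_or_pos P.card with h | h
    · rw [h, Nat.zero_mul] at hP
      omega
    · exact h
  obtain ⟨p0, hp0⟩ := Finset.card_pos.mp hPpos
  -- from `F.card * P.card ≤ K * n * c` to `F.card ≤ K * a * c`
  have hdiv : ∀ K c x : ℕ, x * P.card ≤ K * n * c → x ≤ K * a * c := by
    intro K c x hx
    have h1 : P.card * x ≤ P.card * (K * a * c) := by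
      calc P.card * x = x * P.card := mul_comm _ _
        _ ≤ K * n * c := hx
        _ ≤ K * (P.card * a) * c := Nat.mul_le_mul_right _ (Nat.mul_le_mul_left _ hP)
        _ = P.card * (K * a * c) := by ring
    exact Nat.le_of_mul_le_mul_left h1 hPpos
  -- (c1)
  obtain ⟨F, hFc, hF4, -, hFm⟩ := max_sep (Wd s P 4)
    (fun x y => ∃ p ∈ P, ∃ p' ∈ P, x + s p + (y + s p') ∈ B' b5)
    (fun x y => by
      rintro ⟨p, hp, p', hp', h⟩
      exact ⟨p', hp', p, hp, by rwa [add_comm]⟩)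
    (cF a b5 K5 C) (fun F hF4 hFs => by
      refine hdiv K5 (C b5) F.card ?_
      refine card_sep two hB hB' hle s P b5 (C b5) (K5 * n) (cons b5) F ?_ ?_
      · intro f hf f' hf' hne p hp p' hp' h
        exact hFs f hf f' hf' hne ⟨p, hp, p', hp', h⟩
      · intro W hW hWs
        refine cov5 W (fun w hw => ?_) hWs
        obtain ⟨f, hf, p, hp, rfl⟩ := hW w hw
        obtain ⟨l, hl, hlP, hls⟩ := hF4 f hf
        refine ⟨l ++ [p], by rw [List.length_append, hl]; rfl, fun x hx => ?_, ?_⟩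
        · rcases List.mem_append.mp hx with h | h
          · exact hlP x h
          · rw [List.mem_singleton.mp h]
            exact hp
        · rw [List.map_append, List.sum_append, hls]
          simp)
  obtain ⟨S, hSc, hS0, hFS, hSadd, hSF⟩ := span_fin two F
  have h4P : ∀ w ∈ Wd s P 4, ∃ f ∈ S, ∃ p ∈ P, ∃ p' ∈ P, w + (s p + s p' + f) ∈ B' b5 := by
    intro w hw
    obtain ⟨f, hf, h1⟩ := hFm w hw
    rcases h1 with rfl | ⟨p, hp, p', hp', h1⟩
    · refine ⟨f, hFS f hf, p0, hp0, p0, hp0, ?_⟩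
      rw [two, zero_add, two]
      exact hB'.zero_mem b5
    · refine ⟨f, hFS f hf, p, hp, p', hp', ?_⟩
      have h2 : w + (s p + s p' + f) = w + s p + (f + s p') := by abel
      rwa [h2]
  let Ds : Set G := {g | ∃ p ∈ P, ∃ q ∈ P, ∃ w ∈ S, g = s p + s q + w}
  have hD0 : (0 : G) ∈ Ds := ⟨p0, hp0, p0, hp0, 0, hS0, by rw [two, add_zero]⟩
  have hDadd : ∀ x ∈ Ds, ∀ y ∈ Ds, ∃ d ∈ Ds, x + y + d ∈ B' (b3 + b5) := by
    rintro x ⟨p, hp, q, hq, w, hw, rfl⟩ y ⟨p', hp', q', hq', w', hw', rfl⟩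
    obtain ⟨f, hf, r, hr, r', hr', h1⟩ := h4P (s p + s q + s p' + s q')
      ⟨[p, q, p', q'], rfl, by simp [hp, hq, hp', hq'], by simp; abel⟩
    refine ⟨s r + s r' + (f + (w + w')), ⟨r, hr, r', hr', _, hSadd f hf _ (hSadd w hw w' hw'), rfl⟩, ?_⟩
    have h2 : s p + s q + w + (s p' + s q' + w') + (s r + s r' + (f + (w + w'))) =
        s p + s q + s p' + s q' + (s r + s r' + f) + ((w + w) + (w' + w')) := by abel
    rw [h2, two, two, add_zero, add_zero]
    exact hB'.mono (by omega) h1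
  -- the net
  obtain ⟨N3, hN3c, -, -, hN3m⟩ := max_sep (Wd s P 3) (fun x y => x + y ∈ B' b3)
    (fun x y h => by rwa [add_comm]) (K3 * n) (fun W hW hWs => cov3 W hW hWs)
  let N : Finset G := (N3 ×ˢ S).image fun zw => zw.1 + zw.2
  have hNc : N.card ≤ 2 ^ cF a b5 K5 C * (K3 * n) := by
    refine Finset.card_image_le.trans ?_
    rw [Finset.card_product]
    calc N3.card * S.card ≤ (K3 * n) * 2 ^ F.card := Nat.mul_le_mul hN3c hSc
      _ ≤ (K3 * n) * 2 ^ cF a b5 K5 C := Nat.mul_le_mul_left _ (Nat.pow_le_pow_right (by norm_num) hFc)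
      _ = _ := mul_comm _ _
  have hNet : ∀ f ∈ Ds, ∀ p ∈ P, ∃ z ∈ N, f + s p + z ∈ B' b3 := by
    rintro f ⟨p', hp', q', hq', w, hw, rfl⟩ p hp
    obtain ⟨z, hz, h1⟩ := hN3m (s p' + s q' + s p) ⟨[p', q', p], rfl, by simp [hp, hp', hq'], by simp; abel⟩
    have h2 : s p' + s q' + s p + z ∈ B' b3 := by
      rcases h1 with rfl | h1
      · rw [two]
        exact hB'.zero_mem b3
      · exact h1
    refine ⟨z + w, Finset.mem_image.mpr ⟨(z, w), Finset.mem_product.mpr ⟨hz, hw⟩, rfl⟩, ?_⟩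
    have h3 : s p' + s q' + w + s p + (z + w) = s p' + s q' + s p + z + (w + w) := by abel
    rwa [h3, two, add_zero]
  have hNM : N.card * C (2 * b3) ≤ cM a b3 b5 K3 K5 C * P.card := by
    calc N.card * C (2 * b3) ≤ 2 ^ cF a b5 K5 C * (K3 * n) * C (2 * b3) := Nat.mul_le_mul_right _ hNc
      _ ≤ 2 ^ cF a b5 K5 C * (K3 * (P.card * a)) * C (2 * b3) :=
          Nat.mul_le_mul_right _ (Nat.mul_le_mul_left _ (Nat.mul_le_mul_left _ hP))
      _ = cM a b3 b5 K3 K5 C * P.card := by rw [cM]; ring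
  -- the popular net
  obtain ⟨F', hF'c, hF'D, -, hF'm⟩ := max_sep Ds
    (fun x y => P.card < 2 * cM a b3 b5 K3 K5 C * (pop s P B' (2 * b3) (x + y)).card)
    (fun x y h => by rwa [add_comm y x]) (2 * cM a b3 b5 K3 K5 C) (fun I hID hIs => by
      refine unpop_card two hB' hle s P hPpos b3 (C (2 * b3)) (cM a b3 b5 K3 K5 C) (cons (2 * b3)) N hNM I
        (fun f hf => hNet f (hID f hf)) (fun f hf f' hf' hne => ?_)
      exact not_lt.1 (hIs f hf f' hf' hne))
  refine ⟨Ds, hD0, ?_, ?_, ?_⟩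
  · rintro e ⟨p, hp, q, hq, w, hw, rfl⟩
    obtain ⟨A, hA, rfl⟩ := hSF w hw
    have h1 : ∀ A ⊆ F, ∃ l : List X, l.length = 4 * A.card ∧ (∀ x ∈ l, x ∈ P) ∧ (l.map s).sum = ∑ x ∈ A, x := by
      intro A
      induction A using Finset.induction_on with
      | empty => exact fun _ => ⟨[], by simp, by simp, by simp⟩
      | insert f A hfA ih =>
        intro hA
        obtain ⟨l, hl, hlP, hls⟩ := ih ((Finset.subset_insert _ _).trans hA)
        obtain ⟨l', hl', hlP', hls'⟩ := hF4 f (hA (Finset.mem_insert_self _ _))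
        refine ⟨l' ++ l, ?_, fun x hx => ?_, ?_⟩
        · rw [List.length_append, hl, hl', Finset.card_insert_of_notMem hfA]
          ring
        · rcases List.mem_append.mp hx with h | h
          · exact hlP' x h
          · exact hlP x h
        · rw [List.map_append, List.sum_append, hls, hls', Finset.sum_insert hfA]
    obtain ⟨l, hl, hlP, hls⟩ := h1 A hA
    have hAc : A.card ≤ cF a b5 K5 C := (Finset.card_le_card hA).trans hFc
    refine ⟨p :: q :: l, ?_, ?_, ?_, ?_⟩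
    · simp only [List.length_cons, hl]
      omega
    · simp only [List.length_cons, hl]
      exact ⟨2 * A.card + 1, by ring⟩
    · intro x hx
      rcases List.mem_cons.mp hx with rfl | hx
      · exact hp
      · rcases List.mem_cons.mp hx with rfl | hx
        · exact hq
        · exact hlP x hx
    · rw [List.map_cons, List.map_cons, List.sum_cons, List.sum_cons, hls, add_assoc]
  · exact fun p hp q hq => ⟨p, hp, q, hq, 0, hS0, (add_zero _).symm⟩
  · refine ⟨two, hB.mono, hB.add, hB'.zero, hB'.mono, hB'.add, hle, hD0, hDadd, ?_, ?_⟩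
    · -- the cover
      obtain ⟨F2, hF2c, -, -, hF2m⟩ := max_sep D
        (fun x y => ∃ p ∈ P, ∃ p' ∈ P, x + s p + (y + s p') ∈ B b3)
        (fun x y => by
          rintro ⟨p, hp, p', hp', h⟩
          exact ⟨p', hp', p, hp, by rwa [add_comm]⟩)
        (Kd * a * C b3) (fun F hFD hFs => by
          refine hdiv Kd (C b3) F.card ?_
          refine card_sep two hB hB (fun _ => le_refl _) s P b3 (C b3) (Kd * n) (cons b3) F ?_ ?_
          · intro f hf f' hf' hne p hp p' hp' h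
            exact hFs f hf f' hf' hne ⟨p, hp, p', hp', h⟩
          · intro W hW hWs
            refine covD W (fun w hw => ?_) hWs
            obtain ⟨f, hf, p, hp, rfl⟩ := hW w hw
            exact ⟨f, hFD f hf, p, hp, rfl⟩)
      refine ⟨F2, hF2c, fun e he => ?_⟩
      obtain ⟨f, hf, h1⟩ := hF2m e he
      rcases h1 with rfl | ⟨p, hp, p', hp', h1⟩
      · refine ⟨f, hf, 0, hD0, ?_⟩
        rw [two, add_zero]
        exact hB.zero_mem _
      · refine ⟨f, hf, s p + s p', ⟨p, hp, p', hp', 0, hS0, (add_zero _).symm⟩, ?_⟩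
        have h2 : e + f + (s p + s p') = e + s p + (f + s p') := by abel
        rw [h2]
        exact hB.mono (by omega) h1
    · intro t E hE hEs
      have h1 := local_count two hB hB' hle s P hPpos (2 * b3) (C (2 * t + 4 * b3)) t
        (2 * cM a b3 b5 K3 K5 C)
        (fun p hp Q hQ hq => cons _ p hp Q hQ fun q hq' => hB.mono (by omega) (hq q hq')) F' E hF'c
        (fun e he => by
          obtain ⟨f, hf, h1⟩ := hF'm e (hE e he).1
          refine ⟨f, hf, ?_⟩
          rcases h1 with rfl | h1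
          · rw [two]
            have h2 : (pop s P B' (2 * b3) 0) = P := by
              refine Finset.Subset.antisymm (pop_subset _ _ _ _ _) fun p hp => ?_
              rw [pop, Finset.mem_filter]
              exact ⟨hp, p, hp, by rw [two, add_zero]; exact hB'.zero_mem _⟩
            rw [h2]
            have h3 : 0 < 2 * cM a b3 b5 K3 K5 C := by
              refine lt_of_lt_of_le ?_ hF'c
              exact Finset.card_pos.mpr ⟨f, hf⟩
            exact Nat.le_mul_of_pos_left _ h3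
          · exact h1.le)
        (fun e he => (hE e he).2)
        (fun e he e' he' hne => by
          have h2 := hEs e he e' he' hne
          have h3 : 2 * (2 * b3) = 4 * b3 := by ring
          rwa [h3])
      exact h1

/-! ### area norms -/

open Pool.Agent.helper35.MF in
theorem nrm_ball (T : Set G) : Nrm (Ball T) where
  zero := Ball.zero T 0
  mono := fun h _ hg => Ball.mono h hg
  add := fun ha hb => ball_add ha hb

open Pool.Agent.helper35.MF in
theorem ball_le {T' T : Set G} (h : T' ⊆ T) (r : ℕ) : Ball T' r ⊆ Ball T r := by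
  rintro g ⟨l, h1, h2, h3⟩
  exact ⟨l, h1, fun x hx => h (h2 x hx), h3⟩

open Pool.Agent.helper35.MF in
/-- 7b for area norms: `T' ⊆ T` lines, `P` the letters of the sub-structure -/
theorem exists_pair_ball {Y : Type} {T T' : Set (Y →₀ ZMod 2)} (hT : T' ⊆ T) (P : Finset Y)
    (D : Set (Y →₀ ZMod 2)) (n a b3 b5 K3 K5 Kd : ℕ) (C : ℕ → ℕ) (hn : 0 < n) (hP : n ≤ P.card * a)
    (cons : ∀ b, ∀ p ∈ P, ∀ Q : Finset Y, Q ⊆ P → (∀ q ∈ Q, sy p + sy q ∈ Ball T b) → Q.card ≤ C b)
    (cov3 : ∀ W : Finset (Y →₀ ZMod 2),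
      (∀ w ∈ W, ∃ l : List Y, l.length = 3 ∧ (∀ x ∈ l, x ∈ P) ∧ wd l = w) →
      (∀ w ∈ W, ∀ w' ∈ W, w ≠ w' → w + w' ∉ Ball T' b3) → W.card ≤ K3 * n)
    (cov5 : ∀ W : Finset (Y →₀ ZMod 2),
      (∀ w ∈ W, ∃ l : List Y, l.length = 5 ∧ (∀ x ∈ l, x ∈ P) ∧ wd l = w) →
      (∀ w ∈ W, ∀ w' ∈ W, w ≠ w' → w + w' ∉ Ball T' b5) → W.card ≤ K5 * n)
    (covD : ∀ W : Finset (Y →₀ ZMod 2), (∀ w ∈ W, ∃ f ∈ D, ∃ p ∈ P, w = f + sy p) →
      (∀ w ∈ W, ∀ w' ∈ W, w ≠ w' → w + w' ∉ Ball T b3) → W.card ≤ Kd * n) :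
    ∃ Ds : Set (Y →₀ ZMod 2), (0 : Y →₀ ZMod 2) ∈ Ds ∧
      (∀ e ∈ Ds, ∃ l : List Y, l.length ≤ 2 + 4 * cF a b5 K5 C ∧ Even l.length ∧ (∀ x ∈ l, x ∈ P) ∧
        wd l = e) ∧
      (∀ p ∈ P, ∀ q ∈ P, sy p + sy q ∈ Ds) ∧
      Pair (Ball T) (Ball T') D Ds (b3 + b5) (4 * b3) (Kd * a * C b3) (cm a b3 b5 K3 K5 C) :=
  exists_pair two_eq (nrm_ball T) (nrm_ball T') (ball_le hT) sy P D n a b3 b5 K3 K5 Kd C hn hP cons cov3 cov5 covD

end Pool.Agent.helper71.MF7b
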