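import Pool.Agent.helper23.HB.Stmts

/-!
# HB, modules C4 and PT
-/

open MeasureTheory ProbabilityTheory Set Filter Topology
open scoped ENNReal NNReal

namespace Pool.Agent.helper71.HB
open Pool.Agent.helper23.HB

/-- comparison of sums of indicators through an injection -/
theorem tsum_ind_le {α β : Type*} (p : α → Prop) (q : β → Prop) (f : α → ℝ≥0∞) (g : β → ℝ≥0∞)
    (e : α → β) (he : ∀ a b, p a → p b → e a = e b → a = b) (hq : ∀ a, p a → q (e a))
    (hfg : ∀ a, p a → f a ≤ g (e a)) :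
    ∑' a, ind (p a) * f a ≤ ∑' b, ind (q b) * g b := by
  have h1 : ∑' a, ind (p a) * f a = ∑' a : {a | p a}, f a := by
    rw [tsum_subtype {a | p a} f]
    refine tsum_congr fun a => ?_
    by_cases h : p a
    · rw [ind_true h, one_mul, Set.indicator_of_mem (show a ∈ {a | p a} from h)]
    · rw [ind_false h, zero_mul, Set.indicator_of_notMem (show a ∉ {a | p a} from h)]
  rw [h1]
  calc ∑' a : {a | p a}, f a ≤ ∑' a : {a | p a}, (fun b => ind (q b) * g b) (e a) := by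
        refine ENNReal.tsum_le_tsum fun a => ?_
        simp only
        rw [ind_true (hq a a.2), one_mul]
        exact hfg a a.2
    _ ≤ ∑' b, ind (q b) * g b := by
        refine ENNReal.tsum_comp_le_tsum_of_injective (f := fun a : {a | p a} => e a) ?_ _
        intro a b hab
        exact Subtype.ext (he a b a.2 b.2 hab)

theorem tsum_ind_one_le {α β : Type*} (p : α → Prop) (q : β → Prop)
    (e : α → β) (he : ∀ a b, p a → p b → e a = e b → a = b) (hq : ∀ a, p a → q (e a)) :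
    ∑' a, ind (p a) ≤ ∑' b, ind (q b) := by
  have := tsum_ind_le p q (fun _ => 1) (fun _ => 1) e he hq (fun _ _ => le_rfl)
  simpa using this

theorem ofReal_exp_mul (a b : ℝ) : ENNReal.ofReal (Real.exp a) * ENNReal.ofReal (Real.exp b) =
    ENNReal.ofReal (Real.exp (a + b)) := by
  rw [← ENNReal.ofReal_mul (Real.exp_pos a).le, Real.exp_add]

theorem ofReal_exp_le {a b : ℝ} (h : a ≤ b) :
    ENNReal.ofReal (Real.exp a) ≤ ENNReal.ofReal (Real.exp b) :=
  ENNReal.ofReal_le_ofReal (Real.exp_le_exp.2 h)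

/-- a choice of descendants -/
theorem exists_desc_map {τ : Lab → ℝ} (h : NE τ) {t t' : ℝ} (htt' : t ≤ t') :
    ∃ e : Lab → Lab, (∀ v ∈ Alive τ t, e v ∈ Alive τ t' ∧ v <:+ e v) ∧
      ∀ a b, a ∈ Alive τ t → b ∈ Alive τ t → e a = e b → a = b := by
  have h1 : ∀ v : Lab, ∃ v', v ∈ Alive τ t → v' ∈ Alive τ t' ∧ v <:+ v' := by
    intro v
    by_cases hv : v ∈ Alive τ t
    · obtain ⟨p, hp⟩ := h.exists_desc htt' hv
      exact ⟨p ++ v, fun _ => ⟨hp, ⟨p, rfl⟩⟩⟩
    · exact ⟨v, fun h => absurd h hv⟩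
  choose e he using h1
  refine ⟨e, fun v hv => he v hv, ?_⟩
  intro a b ha hb hab
  have h2 := anc_of_suffix h.1 ha (he a ha).2
  have h3 := anc_of_suffix h.1 hb (he b hb).2
  rw [hab] at h2
  exact h2.symm.trans h3

theorem cnt_mono {τ : Lab → ℝ} (h : NE τ) {t t' : ℝ} (htt' : t ≤ t') : cnt τ t ≤ cnt τ t' := by
  obtain ⟨e, he1, he2⟩ := exists_desc_map h htt'
  exact tsum_ind_one_le _ _ e he2 (fun v hv => (he1 v hv).1)

theorem C4_one (β : ℝ) (τ : Lab → ℝ) (hβ : 0 < β) (h : NE τ) (t : ℝ) (ht : 0 ≤ t) :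
    Xt β τ t ≤ Ms β τ := by
  have h1 : t ≤ ((⌊t⌋₊ + 1 : ℕ) : ℝ) := by
    push_cast
    exact (Nat.lt_floor_add_one t).le
  have h2 : (⌊t⌋₊ : ℝ) ≤ t := Nat.floor_le ht
  calc Xt β τ t ≤ ENNReal.ofReal (Real.exp (-β * t)) * cnt τ ((⌊t⌋₊ + 1 : ℕ) : ℝ) := by
        unfold Xt
        gcongr
        exact cnt_mono h h1
    _ ≤ (ENNReal.ofReal (Real.exp β) * ENNReal.ofReal (Real.exp (-β * ((⌊t⌋₊ + 1 : ℕ) : ℝ)))) *
          cnt τ ((⌊t⌋₊ + 1 : ℕ) : ℝ) := by
        rw [ofReal_exp_mul]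
        gcongr
        push_cast
        nlinarith
    _ = ENNReal.ofReal (Real.exp β) * Xt β τ ((⌊t⌋₊ + 1 : ℕ) : ℝ) := by
        unfold Xt
        rw [mul_assoc]
    _ ≤ Ms β τ := by
        unfold Ms
        gcongr
        exact le_iSup (fun n : ℕ => Xt β τ n) (⌊t⌋₊ + 1)

/-- particles of the subtree of `x :: w` -/
theorem sub_cnt (β : ℝ) (τ : Lab → ℝ) (hβ : 0 < β) (h : NE τ) (w : Lab) (x : Bool) (t : ℝ)
    (ht : death τ w ≤ t) :
    ENNReal.ofReal (Real.exp (-β * t)) * ∑' p : Lab, ind (p ++ x :: w ∈ Alive τ t) ≤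
      ENNReal.ofReal (Real.exp (-β * death τ w)) * Ms β (sh (x :: w) τ) := by
  have h1 : ∀ p : Lab, (p ++ x :: w ∈ Alive τ t) ↔ p ∈ Alive (sh (x :: w) τ) (t - death τ w) := by
    intro p
    rw [← append_mem_Alive, birth_cons, add_sub_cancel]
  have h2 : ∑' p : Lab, ind (p ++ x :: w ∈ Alive τ t) =
      cnt (sh (x :: w) τ) (t - death τ w) := by
    unfold cnt
    refine tsum_congr fun p => ?_
    rw [propext (h1 p)]
  rw [h2]
  have h3 : ENNReal.ofReal (Real.exp (-β * t)) = ENNReal.ofReal (Real.exp (-β * death τ w)) *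
      ENNReal.ofReal (Real.exp (-β * (t - death τ w))) := by
    rw [ofReal_exp_mul]
    congr 2
    ring
  rw [h3, mul_assoc]
  gcongr
  exact C4_one β _ hβ (h.sh _) _ (by linarith)

theorem C4_two (β : ℝ) (τ : Lab → ℝ) (hβ : 0 < β) (h : NE τ) (m t : ℝ) (u : Lab) (hm : 0 ≤ m)
    (hmt : m ≤ t) (hu : u ∈ Alive τ m) :
    ENNReal.ofReal (Real.exp (-β * t)) * ∑' v : Lab, ind (v ∈ Alive τ t ∧ u <:+ v) ≤
      ENNReal.ofReal (Real.exp (-β * m)) * wt β τ u := by
  by_cases htd : t < death τ u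
  · have hut : u ∈ Alive τ t := ⟨hu.1.trans hmt, htd⟩
    have h1 : ∑' v : Lab, ind (v ∈ Alive τ t ∧ u <:+ v) ≤ 1 := by
      have h2 : ∀ v : Lab, ind (v ∈ Alive τ t ∧ u <:+ v) ≤ if v = u then 1 else 0 := by
        intro v
        by_cases hv : v = u
        · rw [if_pos hv]
          exact ind_le_one _
        · rw [if_neg hv, ind_false]
          rintro ⟨h3, h4⟩
          exact hv (eq_of_suffix h.1 hut h3 h4).symm
      calc ∑' v : Lab, ind (v ∈ Alive τ t ∧ u <:+ v) ≤ ∑' v : Lab, if v = u then 1 else 0 :=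
            ENNReal.tsum_le_tsum h2
        _ = 1 := by rw [tsum_ite_eq]
    calc ENNReal.ofReal (Real.exp (-β * t)) * ∑' v : Lab, ind (v ∈ Alive τ t ∧ u <:+ v)
        ≤ ENNReal.ofReal (Real.exp (-β * m)) * 1 := by
          gcongr ?_ * ?_
          · exact ofReal_exp_le (by nlinarith)
      _ ≤ _ := by
          gcongr
          unfold wt
          rw [add_assoc]
          exact le_self_add
  · push Not at htd
    have h1 : ∑' v : Lab, ind (v ∈ Alive τ t ∧ u <:+ v) ≤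
        ∑' z : Bool × Lab, ind (z.2 ++ z.1 :: u ∈ Alive τ t) := by
      have hex : ∀ v : Lab, ∃ z : Bool × Lab, (v ∈ Alive τ t ∧ u <:+ v) → v = z.2 ++ z.1 :: u := by
        intro v
        by_cases hv : v ∈ Alive τ t ∧ u <:+ v
        · obtain ⟨hv1, ⟨p, rfl⟩⟩ := hv
          rcases List.eq_nil_or_concat p with rfl | ⟨q, x, rfl⟩
          · exact absurd hv1.2 (not_lt.2 (by simpa using htd))
          · exact ⟨(x, q), fun _ => by simp⟩
        · exact ⟨(true, []), fun h => absurd h hv⟩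
      choose e he using hex
      refine tsum_ind_one_le _ _ e ?_ ?_
      · intro a b ha hb hab
        rw [he a ha, he b hb, hab]
      · intro a ha
        rw [← he a ha]
        exact ha.1
    have h2 : ∑' z : Bool × Lab, ind (z.2 ++ z.1 :: u ∈ Alive τ t) =
        ∑' p : Lab, ind (p ++ false :: u ∈ Alive τ t) +
          ∑' p : Lab, ind (p ++ true :: u ∈ Alive τ t) := by
      rw [ENNReal.tsum_prod', tsum_bool]
    calc ENNReal.ofReal (Real.exp (-β * t)) * ∑' v : Lab, ind (v ∈ Alive τ t ∧ u <:+ v)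
        ≤ ENNReal.ofReal (Real.exp (-β * t)) * (∑' p : Lab, ind (p ++ false :: u ∈ Alive τ t) +
          ∑' p : Lab, ind (p ++ true :: u ∈ Alive τ t)) := by
          gcongr
          exact h1.trans h2.le
      _ ≤ ENNReal.ofReal (Real.exp (-β * death τ u)) * Ms β (sh (false :: u) τ) +
          ENNReal.ofReal (Real.exp (-β * death τ u)) * Ms β (sh (true :: u) τ) := by
          rw [mul_add]
          exact add_le_add (sub_cnt β τ hβ h u false t htd) (sub_cnt β τ hβ h u true t htd)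
      _ = ENNReal.ofReal (Real.exp (-β * death τ u)) * (Ms β (sh (false :: u) τ) +
          Ms β (sh (true :: u) τ)) := by rw [mul_add]
      _ ≤ _ := by
          have h3 : -β * death τ u ≤ -β * m := by
            have := hu.2
            nlinarith
          unfold wt
          gcongr ?_ * ?_
          · exact ofReal_exp_le h3
          · rw [add_assoc]
            exact le_add_self

theorem C4_three (β : ℝ) (τ : Lab → ℝ) (hβ : 0 < β) (h : NE τ) (n : ℝ) (w : Lab) (hn : 0 ≤ n) :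
    ENNReal.ofReal (Real.exp (-(2 * β * n))) *
        ∑' z : Bool × Lab × Lab, ind (qu (w, z) ∈ Alive τ n ∧ qv (w, z) ∈ Alive τ n) ≤
      2 * (ENNReal.ofReal (Real.exp (-(2 * β * death τ w))) * Ms β (sh (false :: w) τ) *
        Ms β (sh (true :: w) τ)) := by
  by_cases hd : n < death τ w
  · have h1 : ∑' z : Bool × Lab × Lab, ind (qu (w, z) ∈ Alive τ n ∧ qv (w, z) ∈ Alive τ n) = 0 := by
      rw [ENNReal.tsum_eq_zero]
      rintro ⟨x, p, q⟩
      refine ind_false ?_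
      rintro ⟨h1, -⟩
      have h2 := death_le_birth_append h.1 x p w
      have h3 : birth τ (p ++ x :: w) ≤ n := h1.1
      linarith
    rw [h1, mul_zero]
    exact bot_le
  · push Not at hd
    set a := ∑' p : Lab, ind (p ++ false :: w ∈ Alive τ n) with ha
    set b := ∑' p : Lab, ind (p ++ true :: w ∈ Alive τ n) with hb
    have h1 : ∑' z : Bool × Lab × Lab, ind (qu (w, z) ∈ Alive τ n ∧ qv (w, z) ∈ Alive τ n) =
        2 * (a * b) := by
      rw [ENNReal.tsum_prod', tsum_bool]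
      have e1 : ∑' z : Lab × Lab, ind (qu (w, false, z) ∈ Alive τ n ∧
          qv (w, false, z) ∈ Alive τ n) = a * b := by
        rw [ENNReal.tsum_prod', ha, ← ENNReal.tsum_mul_right]
        refine tsum_congr fun p => ?_
        rw [hb, ← ENNReal.tsum_mul_left]
        refine tsum_congr fun q => ?_
        rw [ind_and]
        rfl
      have e2 : ∑' z : Lab × Lab, ind (qu (w, true, z) ∈ Alive τ n ∧
          qv (w, true, z) ∈ Alive τ n) = b * a := by
        rw [ENNReal.tsum_prod', hb, ← ENNReal.tsum_mul_right]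
        refine tsum_congr fun p => ?_
        rw [ha, ← ENNReal.tsum_mul_left]
        refine tsum_congr fun q => ?_
        rw [ind_and]
        rfl
      rw [e1, e2, mul_comm b a, two_mul]
    have h2 := sub_cnt β τ hβ h w false n hd
    have h3 := sub_cnt β τ hβ h w true n hd
    rw [← ha] at h2
    rw [← hb] at h3
    have h4 : ENNReal.ofReal (Real.exp (-(2 * β * n))) =
        ENNReal.ofReal (Real.exp (-β * n)) * ENNReal.ofReal (Real.exp (-β * n)) := by
      rw [ofReal_exp_mul]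
      congr 2
      ring
    have h5 : ENNReal.ofReal (Real.exp (-(2 * β * death τ w))) =
        ENNReal.ofReal (Real.exp (-β * death τ w)) *
          ENNReal.ofReal (Real.exp (-β * death τ w)) := by
      rw [ofReal_exp_mul]
      congr 2
      ring
    rw [h1, h4, h5]
    calc ENNReal.ofReal (Real.exp (-β * n)) * ENNReal.ofReal (Real.exp (-β * n)) *
          (2 * (a * b)) = 2 * ((ENNReal.ofReal (Real.exp (-β * n)) * a) *
          (ENNReal.ofReal (Real.exp (-β * n)) * b)) := by ring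
      _ ≤ 2 * ((ENNReal.ofReal (Real.exp (-β * death τ w)) * Ms β (sh (false :: w) τ)) *
          (ENNReal.ofReal (Real.exp (-β * death τ w)) * Ms β (sh (true :: w) τ))) := by
          gcongr
      _ = _ := by ring

theorem mC4 : St_C4 :=
  ⟨C4_one, C4_two, C4_three⟩

theorem mPT (hC4 : St_C4) : St_PT := by
  intro β τ m t φ F hβ h hmt hF
  have ht0 : 0 ≤ t := le_trans (Nat.cast_nonneg m) hmt
  set J : ℕ := ⌊t⌋₊ with hJ
  have hJt : (J : ℝ) ≤ t := Nat.floor_le ht0
  have htJ : t ≤ (J : ℝ) + 1 := (Nat.lt_floor_add_one t).le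
  obtain ⟨e, he1, he2⟩ := exists_desc_map h htJ
  have h1 : ∑' v : Lab, ind (v ∈ Alive τ t) * F v ≤
      ∑' v' : Lab, ind (v' ∈ Alive τ ((J : ℝ) + 1)) *
        ∑ j ∈ Finset.Icc m J, φ (anc τ ((j : ℝ) + 1) v') j :=
    tsum_ind_le _ _ _ _ e he2 (fun v hv => (he1 v hv).1)
      (fun v hv => hF v hv (e v) (he1 v hv).1 (he1 v hv).2)
  have h2 : ∑' v' : Lab, ind (v' ∈ Alive τ ((J : ℝ) + 1)) *
        ∑ j ∈ Finset.Icc m J, φ (anc τ ((j : ℝ) + 1) v') j =
      ∑ j ∈ Finset.Icc m J, ∑' v' : Lab, ind (v' ∈ Alive τ ((J : ℝ) + 1)) *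
        φ (anc τ ((j : ℝ) + 1) v') j := by
    rw [← Summable.tsum_finsetSum (fun _ _ => ENNReal.summable)]
    refine tsum_congr fun v' => ?_
    rw [Finset.mul_sum]
  have h3 : ∀ j ∈ Finset.Icc m J, ∑' v' : Lab, ind (v' ∈ Alive τ ((J : ℝ) + 1)) *
        φ (anc τ ((j : ℝ) + 1) v') j ≤
      ∑' u : Lab, ind (u ∈ Alive τ ((j : ℝ) + 1)) * φ u j *
        ∑' v' : Lab, ind (v' ∈ Alive τ ((J : ℝ) + 1) ∧ u <:+ v') := by
    intro j hj
    have hjJ : (j : ℝ) + 1 ≤ (J : ℝ) + 1 := by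
      have : (j : ℝ) ≤ (J : ℝ) := by exact_mod_cast (Finset.mem_Icc.1 hj).2
      linarith
    have e1 : ∑' u : Lab, ind (u ∈ Alive τ ((j : ℝ) + 1)) * φ u j *
        ∑' v' : Lab, ind (v' ∈ Alive τ ((J : ℝ) + 1) ∧ u <:+ v') =
        ∑' v' : Lab, ∑' u : Lab, ind (u ∈ Alive τ ((j : ℝ) + 1)) * φ u j *
          ind (v' ∈ Alive τ ((J : ℝ) + 1) ∧ u <:+ v') := by
      rw [ENNReal.tsum_comm]
      refine tsum_congr fun u => ?_
      rw [ENNReal.tsum_mul_left]
    rw [e1]
    refine ENNReal.tsum_le_tsum fun v' => ?_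
    by_cases hv : v' ∈ Alive τ ((J : ℝ) + 1)
    · have e2 := ENNReal.le_tsum (f := fun u : Lab => ind (u ∈ Alive τ ((j : ℝ) + 1)) * φ u j *
          ind (v' ∈ Alive τ ((J : ℝ) + 1) ∧ u <:+ v')) (anc τ ((j : ℝ) + 1) v')
      refine le_trans (le_of_eq ?_) e2
      have e3 : anc τ ((j : ℝ) + 1) v' ∈ Alive τ ((j : ℝ) + 1) :=
        anc_mem (by positivity) (lt_of_le_of_lt hjJ hv.2)
      have e4 : v' ∈ Alive τ ((J : ℝ) + 1) ∧ anc τ ((j : ℝ) + 1) v' <:+ v' :=
        ⟨hv, anc_suffix τ _ v'⟩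
      rw [ind_true e3, ind_true e4, ind_true hv, one_mul, mul_one]
    · rw [ind_false hv, zero_mul]
      exact bot_le
  have h4 : ∀ j ∈ Finset.Icc m J, ENNReal.ofReal (Real.exp (-β * ((J : ℝ) + 1))) *
      ∑' v' : Lab, ind (v' ∈ Alive τ ((J : ℝ) + 1)) * φ (anc τ ((j : ℝ) + 1) v') j ≤
      ENNReal.ofReal (Real.exp (-β * ((j : ℝ) + 1))) *
          ∑' u : Lab, ind (u ∈ Alive τ ((j : ℝ) + 1)) * φ u j * wt β τ u := by
    intro j hj
    have hjJ : (j : ℝ) + 1 ≤ (J : ℝ) + 1 := by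
      have : (j : ℝ) ≤ (J : ℝ) := by exact_mod_cast (Finset.mem_Icc.1 hj).2
      linarith
    calc _ ≤ ENNReal.ofReal (Real.exp (-β * ((J : ℝ) + 1))) *
          ∑' u : Lab, ind (u ∈ Alive τ ((j : ℝ) + 1)) * φ u j *
            ∑' v' : Lab, ind (v' ∈ Alive τ ((J : ℝ) + 1) ∧ u <:+ v') :=
          mul_le_mul_right (h3 j hj) _
      _ = ∑' u : Lab, ind (u ∈ Alive τ ((j : ℝ) + 1)) * φ u j *
            (ENNReal.ofReal (Real.exp (-β * ((J : ℝ) + 1))) *
              ∑' v' : Lab, ind (v' ∈ Alive τ ((J : ℝ) + 1) ∧ u <:+ v')) := by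
          rw [← ENNReal.tsum_mul_left]
          refine tsum_congr fun u => ?_
          ring
      _ ≤ ∑' u : Lab, ind (u ∈ Alive τ ((j : ℝ) + 1)) * φ u j *
            (ENNReal.ofReal (Real.exp (-β * ((j : ℝ) + 1))) * wt β τ u) := by
          refine ENNReal.tsum_le_tsum fun u => ?_
          by_cases hu : u ∈ Alive τ ((j : ℝ) + 1)
          · exact mul_le_mul_right
              (hC4.2.1 β τ hβ h ((j : ℝ) + 1) ((J : ℝ) + 1) u (by positivity) hjJ hu) _
          · rw [ind_false hu, zero_mul, zero_mul, zero_mul]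
      _ = _ := by
          rw [← ENNReal.tsum_mul_left]
          refine tsum_congr fun u => ?_
          ring
  have h5 : ENNReal.ofReal (Real.exp (-β * t)) ≤ ENNReal.ofReal (Real.exp β) *
      ENNReal.ofReal (Real.exp (-β * ((J : ℝ) + 1))) := by
    rw [ofReal_exp_mul]
    exact ofReal_exp_le (by nlinarith)
  calc ENNReal.ofReal (Real.exp (-β * t)) * ∑' v : Lab, ind (v ∈ Alive τ t) * F v
      ≤ (ENNReal.ofReal (Real.exp β) * ENNReal.ofReal (Real.exp (-β * ((J : ℝ) + 1)))) *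
        ∑ j ∈ Finset.Icc m J, ∑' v' : Lab, ind (v' ∈ Alive τ ((J : ℝ) + 1)) *
          φ (anc τ ((j : ℝ) + 1) v') j := by
        exact mul_le_mul' h5 (h1.trans h2.le)
    _ = ENNReal.ofReal (Real.exp β) * ∑ j ∈ Finset.Icc m J,
        (ENNReal.ofReal (Real.exp (-β * ((J : ℝ) + 1))) *
          ∑' v' : Lab, ind (v' ∈ Alive τ ((J : ℝ) + 1)) * φ (anc τ ((j : ℝ) + 1) v') j) := by
        rw [mul_assoc, Finset.mul_sum]
    _ ≤ ENNReal.ofReal (Real.exp β) * ∑ j ∈ Finset.Icc m J, ind (m ≤ j) *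
        (ENNReal.ofReal (Real.exp (-β * ((j : ℝ) + 1))) *
          ∑' u : Lab, ind (u ∈ Alive τ ((j : ℝ) + 1)) * φ u j * wt β τ u) := by
        refine mul_le_mul_right (Finset.sum_le_sum fun j hj => ?_) _
        rw [ind_true (Finset.mem_Icc.1 hj).1, one_mul]
        exact h4 j hj
    _ ≤ _ := mul_le_mul_right (ENNReal.sum_le_tsum _) _

end Pool.Agent.helper71.HB
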