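import Pool.Agent.helper23.HB.Stmts

/-!
# HB, module E2M
-/

open MeasureTheory ProbabilityTheory Set Filter Topology
open scoped ENNReal NNReal

namespace Pool.Agent.helper71.HB
open Pool.Agent.helper23.HB

theorem E2M_qn (hBLK : St_BLK) {Ω : Type} [MeasurableSpace Ω] (P : Measure Ω)
    [IsProbabilityMeasure P] (B : Ω → Lab → Pth) (hB : Noise P B) {h : ℝ} (hh : 0 < h)
    {gd : Set (ℝ × ℝ)} (hgd : MeasurableSet gd) (n : ℕ) :
    ∫⁻ ω, ind (∀ k < n, blk h (B ω []) k ∈ gd) ∂P = (P {ω | blk h (B ω []) 0 ∈ gd}) ^ n := by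
  have hBM : BMp P (fun ω => (B ω [] : ℝ → ℝ)) :=
    ⟨fun ω => (B ω []).continuous, fun t => (measurable_pth_apply t).comp (hB.meas []), hB.bm []⟩
  obtain ⟨h1, h2, -⟩ := hBLK Ω P (fun ω => (B ω [] : ℝ → ℝ)) hBM h hh
  have hm : Measurable (fun ω => blk h (B ω [])) := (measurable_blk_pth h).comp (hB.meas [])
  have hmk : ∀ k, Measurable (fun ω => blk h (B ω []) k) :=
    fun k => (measurable_pi_apply k).comp hm
  have h3 := h1.measure_inter_preimage_eq_mul (Finset.range n) (sets := fun _ => gd)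
    (fun _ _ => hgd)
  have h4 : ∀ k, P ((fun ω => blk h (B ω []) k) ⁻¹' gd) = P {ω | blk h (B ω []) 0 ∈ gd} := by
    intro k
    rw [← Measure.map_apply (hmk k) hgd, h2 k, Measure.map_apply (hmk 0) hgd]
    rfl
  have h5 : (⋂ k ∈ Finset.range n, (fun ω => blk h (B ω []) k) ⁻¹' gd) =
      {ω | ∀ k < n, blk h (B ω []) k ∈ gd} := by
    ext ω
    simp
  rw [h5] at h3
  have h6 : MeasurableSet {ω | ∀ k < n, blk h (B ω []) k ∈ gd} := by
    rw [← h5]
    exact Finset.measurableSet_biInter _ fun k _ => (hmk k) hgd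
  have h7 : ∀ ω, ind (∀ k < n, blk h (B ω []) k ∈ gd) =
      {ω | ∀ k < n, blk h (B ω []) k ∈ gd}.indicator (fun _ => (1 : ℝ≥0∞)) ω := fun ω =>
    ind_mem {ω | ∀ k < n, blk h (B ω []) k ∈ gd} ω
  simp_rw [h7]
  rw [lintegral_indicator h6, setLIntegral_one, h3]
  simp_rw [h4]
  rw [Finset.prod_const, Finset.card_range]

theorem E2M_meas (h : ℝ) {gd : Set (ℝ × ℝ)} (hgd : MeasurableSet gd) (n : ℕ) (p : Lab) :
    MeasurableSet {x : (Lab → ℝ) × (Lab → Pth) | p ∈ Gd2 h gd n x.1 x.2} := by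
  have h1 : MeasurableSet {x : (Lab → ℝ) × (Lab → Pth) | p ∈ Alive x.1 (n * h)} :=
    measurable_fst (measurableSet_Alive_left p (n * h))
  have h2 : MeasurableSet {x : (Lab → ℝ) × (Lab → Pth) | GoodB h gd n (line x.1 x.2 p)} := by
    have : {x : (Lab → ℝ) × (Lab → Pth) | GoodB h gd n (line x.1 x.2 p)} =
        ⋂ k ∈ Finset.range n, (fun x : (Lab → ℝ) × (Lab → Pth) => blk h (line x.1 x.2 p) k) ⁻¹'
          gd := by
      ext x
      simp [GoodB]
    rw [this]
    exact Finset.measurableSet_biInter _ fun k _ =>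
      ((measurable_pi_apply k).comp (measurable_blk_line h p)) hgd
  exact h1.inter h2

/-- mean of the number of good particles -/
theorem E2M_first (hM21 : St_M21) (hBLK : St_BLK) (hCNT : St_CNT)
    {Ω : Type} [MeasurableSpace Ω] (P : Measure Ω) [IsProbabilityMeasure P]
    {β : ℝ} (T : Ω → Lab → ℝ) (B : Ω → Lab → Pth) (hβ : 0 < β) (hT : Life β P T)
    (hB : Noise P B) (hTB : IndepFun T B P) {h : ℝ} (hh : 0 < h) {gd : Set (ℝ × ℝ)}
    (hgd : MeasurableSet gd) (n : ℕ) :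
    ∫⁻ ω, ∑' p : Lab, ind (p ∈ Gd2 h gd n (T ω) (B ω)) ∂P =
      ENNReal.ofReal (Real.exp (β * (n * h))) * (P {ω | blk h (B ω []) 0 ∈ gd}) ^ n := by
  have hTm : Measurable T := measurable_pi_lambda _ hT.meas
  have hBm : Measurable B := measurable_pi_lambda _ hB.meas
  have hTBm : Measurable (fun ω => (T ω, B ω)) := hTm.prodMk hBm
  rw [lintegral_tsum]
  · have h1 : ∀ p : Lab, ∫⁻ ω, ind (p ∈ Gd2 h gd n (T ω) (B ω)) ∂P =
        (∫⁻ ω, ind (p ∈ Alive (T ω) (n * h)) ∂P) * (P {ω | blk h (B ω []) 0 ∈ gd}) ^ n := by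
      intro p
      have hF : Measurable (fun x : ℕ → ℝ × ℝ => ind (∀ k < n, x k ∈ gd)) := by
        have hs : MeasurableSet {x : ℕ → ℝ × ℝ | ∀ k < n, x k ∈ gd} := by
          have : {x : ℕ → ℝ × ℝ | ∀ k < n, x k ∈ gd} =
              ⋂ k ∈ Finset.range n, (fun x : ℕ → ℝ × ℝ => x k) ⁻¹' gd := by
            ext x
            simp
          rw [this]
          exact Finset.measurableSet_biInter _ fun k _ => (measurable_pi_apply k) hgd
        exact measurable_ind hs
      have h2 := hM21 Ω P T B hT.meas hT.pos hB hTB p h hh (fun τ => ind (p ∈ Alive τ (n * h)))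
        (fun x => ind (∀ k < n, x k ∈ gd)) (measurable_ind (measurableSet_Alive_left p _)) hF
      rw [E2M_qn hBLK P B hB hh hgd n] at h2
      rw [← h2]
      refine lintegral_congr fun ω => ?_
      rw [← ind_and]
      rfl
    simp_rw [h1]
    rw [ENNReal.tsum_mul_right, ← lintegral_tsum]
    · have h3 := (hCNT Ω P β T hβ hT).1 (n * h) (by positivity)
      unfold cnt at h3
      rw [h3]
    · intro p
      exact ((measurable_ind (measurableSet_Alive_left p _)).comp hTm).aemeasurable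
  · intro p
    exact ((measurable_ind (E2M_meas h hgd n p)).comp hTBm).aemeasurable

/-- square of the number of good particles -/
theorem E2M_square {τ : Lab → ℝ} (hτ : ∀ u, 0 < τ u) (b : Lab → Pth) (h : ℝ)
    (gd : Set (ℝ × ℝ)) (n : ℕ) :
    (∑' p : Lab, ind (p ∈ Gd2 h gd n τ b)) ^ 2 ≤ (∑' p : Lab, ind (p ∈ Gd2 h gd n τ b)) +
      ∑' z : Quad, ind (qu z ∈ Gd2 h gd n τ b ∧ qv z ∈ Gd2 h gd n τ b) := by
  set G := Gd2 h gd n τ b with hG
  have h1 : (∑' p : Lab, ind (p ∈ G)) ^ 2 = ∑' x : Lab × Lab, ind (x.1 ∈ G) * ind (x.2 ∈ G) := by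
    rw [sq, ENNReal.tsum_prod', ← ENNReal.tsum_mul_right]
    refine tsum_congr fun p => ?_
    rw [← ENNReal.tsum_mul_left]
  have h2 : ∀ x : Lab × Lab, ind (x.1 ∈ G) * ind (x.2 ∈ G) ≤
      ind (x.1 = x.2) * ind (x.1 ∈ G) +
        ∑' z : Quad, ind ((qu z, qv z) = x) * ind (qu z ∈ G ∧ qv z ∈ G) := by
    rintro ⟨p, p'⟩
    simp only
    by_cases hp : p ∈ G
    · by_cases hp' : p' ∈ G
      · by_cases hpp : p = p'
        · rw [ind_true hp, ind_true hp', ind_true hpp]
          simp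
        · have hz : ∃ z : Quad, qu z = p ∧ qv z = p' := by
            rcases suffix_or p p' with hs | hs | hs
            · exact absurd (eq_of_suffix hτ hp.1 hp'.1 hs) hpp
            · exact absurd (eq_of_suffix hτ hp'.1 hp.1 hs).symm hpp
            · exact hs
          obtain ⟨z, hz1, hz2⟩ := hz
          have h3 := ENNReal.le_tsum (f := fun z : Quad => ind ((qu z, qv z) = (p, p')) *
            ind (qu z ∈ G ∧ qv z ∈ G)) z
          have h4 : (qu z, qv z) = (p, p') := by rw [hz1, hz2]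
          have h5 : qu z ∈ G ∧ qv z ∈ G := by
            rw [hz1, hz2]
            exact ⟨hp, hp'⟩
          rw [ind_true h4, ind_true h5, one_mul] at h3
          rw [ind_true hp, ind_true hp', one_mul]
          exact h3.trans le_add_self
      · rw [ind_false hp', mul_zero]
        exact bot_le
    · rw [ind_false hp, zero_mul]
      exact bot_le
  rw [h1]
  refine (ENNReal.tsum_le_tsum h2).trans (le_of_eq ?_)
  rw [ENNReal.tsum_add]
  congr 1
  · rw [ENNReal.tsum_prod']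
    refine tsum_congr fun p => ?_
    simp only
    have : ∀ p' : Lab, ind (p = p') * ind (p ∈ G) = if p' = p then ind (p ∈ G) else 0 := by
      intro p'
      by_cases hpp : p' = p
      · rw [if_pos hpp, ind_true hpp.symm, one_mul]
      · rw [if_neg hpp, ind_false (fun h => hpp h.symm), zero_mul]
    simp_rw [this]
    rw [tsum_ite_eq]
  · rw [ENNReal.tsum_comm]
    refine tsum_congr fun z => ?_
    have : ∀ x : Lab × Lab, ind ((qu z, qv z) = x) * ind (qu z ∈ G ∧ qv z ∈ G) =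
        if x = (qu z, qv z) then ind (qu z ∈ G ∧ qv z ∈ G) else 0 := by
      intro x
      by_cases hx : x = (qu z, qv z)
      · rw [if_pos hx, ind_true hx.symm, one_mul]
      · rw [if_neg hx, ind_false (fun h => hx h.symm), zero_mul]
    simp_rw [this]
    rw [tsum_ite_eq]

/-- the algebra of one term -/
theorem E2M_term {β h q κ : ℝ} (hq : 0 < q) (hκ : κ = Real.exp (β * h) * q)
    (hκ0 : 0 < κ) {m n : ℕ} (hmn : m < n) (g : ℝ) :
    (κ ^ n)⁻¹ ^ 2 * (q ^ (m + 2 * (n - m - 1)) *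
      (g * (2 * β * Real.exp (β * (2 * (n * h) - m * h))) * h)) =
      2 * β * h / q ^ 2 * (g * (κ⁻¹) ^ m) := by
  obtain ⟨N, rfl⟩ : ∃ N, n = m + 1 + N := ⟨n - m - 1, by omega⟩
  have e1 : m + 1 + N - m - 1 = N := by omega
  rw [e1]
  have e2 : Real.exp (β * (2 * (((m + 1 + N : ℕ) : ℝ) * h) - m * h)) =
      Real.exp (β * h) ^ (m + 2 + 2 * N) := by
    rw [← Real.exp_nat_mul]
    congr 1
    push_cast
    ring
  rw [e2]
  have e3 : Real.exp (β * h) = κ / q := by
    rw [hκ]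
    field_simp
  rw [e3]
  have f1 : q ^ (m + 2 * N) = q ^ m * (q ^ N) ^ 2 := by ring
  have f2 : (κ / q) ^ (m + 2 + 2 * N) = κ ^ m * κ ^ 2 * (κ ^ N) ^ 2 /
      (q ^ m * q ^ 2 * (q ^ N) ^ 2) := by
    rw [div_pow]
    congr 1 <;> ring
  have f3 : κ ^ (m + 1 + N) = κ ^ m * κ * κ ^ N := by ring
  rw [f1, f2, f3, inv_pow κ m]
  have hm1 : κ ^ m ≠ 0 := by positivity
  have hm2 : κ ^ N ≠ 0 := by positivity
  have hm3 : q ^ m ≠ 0 := by positivity
  have hm4 : q ^ N ≠ 0 := by positivity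
  generalize κ ^ m = a at *
  generalize κ ^ N = b at *
  generalize q ^ m = c at *
  generalize q ^ N = d at *
  field_simp

theorem E2M_pair (hPSUM : St_PSUM) {Ω : Type} [MeasurableSpace Ω] (P : Measure Ω)
    [IsProbabilityMeasure P] {β : ℝ} (T : Ω → Lab → ℝ) (B : Ω → Lab → Pth) (hβ : 0 < β)
    (hT : Life β P T) (hB : Noise P B) (hTB : IndepFun T B P) {h : ℝ} (hh : 0 < h)
    {gd : Set (ℝ × ℝ)} (hgd : MeasurableSet gd) {κ γ : ℝ} (hγ : 0 ≤ γ)
    (hκ : κ = Real.exp (β * h) * (P {ω | blk h (B ω []) 0 ∈ gd}).toReal)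
    (hκ0 : 0 < κ) (n : ℕ) :
    ENNReal.ofReal ((κ ^ n)⁻¹ ^ 2) * ∫⁻ ω, ∑' z : Quad,
        ind (qu z ∈ Gd2 h gd n (T ω) (B ω) ∧ qv z ∈ Gd2 h gd n (T ω) (B ω)) *
        ENNReal.ofReal (Real.exp (γ * death (T ω) z.1)) ∂P ≤
      ENNReal.ofReal (2 * β * h / (P {ω | blk h (B ω []) 0 ∈ gd}).toReal ^ 2 *
        Real.exp (γ * h)) * (1 - ENNReal.ofReal (Real.exp (γ * h) / κ))⁻¹ := by
  set q := (P {ω | blk h (B ω []) 0 ∈ gd}).toReal with hq
  have hqE : P {ω | blk h (B ω []) 0 ∈ gd} = ENNReal.ofReal q := by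
    rw [hq, ENNReal.ofReal_toReal (measure_ne_top _ _)]
  have hq0 : 0 < q := by
    have : 0 ≤ q := ENNReal.toReal_nonneg
    rcases this.eq_or_lt with h0 | h0
    · rw [← h0, mul_zero] at hκ
      linarith
    · exact h0
  have h1 := hPSUM Ω P β T B hβ hT hB hTB h gd n (fun r => ENNReal.ofReal (Real.exp (γ * r))) hh
    hgd (by fun_prop)
  refine (mul_le_mul_right h1 _).trans ?_
  rw [Finset.mul_sum]
  have h2 : ∀ m ∈ Finset.range n, ENNReal.ofReal ((κ ^ n)⁻¹ ^ 2) *
      ((P {ω | blk h (B ω []) 0 ∈ gd}) ^ (m + 2 * (n - m - 1)) *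
        ∫⁻ r in Ioc ((m : ℝ) * h) (((m : ℝ) + 1) * h),
          ENNReal.ofReal (Real.exp (γ * r)) *
            ENNReal.ofReal (2 * β * Real.exp (β * (2 * (n * h) - r)))) ≤
      ENNReal.ofReal (2 * β * h / q ^ 2 * Real.exp (γ * h)) *
        ENNReal.ofReal (Real.exp (γ * h) / κ) ^ m := by
    intro m hm
    have hmn : m < n := Finset.mem_range.1 hm
    have h3 : ∫⁻ r in Ioc ((m : ℝ) * h) (((m : ℝ) + 1) * h),
          ENNReal.ofReal (Real.exp (γ * r)) *
            ENNReal.ofReal (2 * β * Real.exp (β * (2 * (n * h) - r))) ≤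
        ENNReal.ofReal (Real.exp (γ * ((m + 1) * h)) *
          (2 * β * Real.exp (β * (2 * (n * h) - m * h))) * h) := by
      calc _ ≤ ∫⁻ r in Ioc ((m : ℝ) * h) (((m : ℝ) + 1) * h),
            ENNReal.ofReal (Real.exp (γ * ((m + 1) * h)) *
              (2 * β * Real.exp (β * (2 * (n * h) - m * h)))) := by
            refine setLIntegral_mono' measurableSet_Ioc fun r hr => ?_
            rw [← ENNReal.ofReal_mul (Real.exp_pos _).le]
            refine ENNReal.ofReal_le_ofReal ?_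
            gcongr
            · exact hr.2
            · exact hr.1.le
        _ = _ := by
            rw [setLIntegral_const, Real.volume_Ioc, ← ENNReal.ofReal_mul (by positivity)]
            congr 1
            ring
    calc _ ≤ ENNReal.ofReal ((κ ^ n)⁻¹ ^ 2) *
        ((P {ω | blk h (B ω []) 0 ∈ gd}) ^ (m + 2 * (n - m - 1)) *
          ENNReal.ofReal (Real.exp (γ * ((m + 1) * h)) *
          (2 * β * Real.exp (β * (2 * (n * h) - m * h))) * h)) :=
          mul_le_mul_right (mul_le_mul_right h3 _) _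
      _ = ENNReal.ofReal ((κ ^ n)⁻¹ ^ 2 * (q ^ (m + 2 * (n - m - 1)) *
          (Real.exp (γ * ((m + 1) * h)) *
          (2 * β * Real.exp (β * (2 * (n * h) - m * h))) * h))) := by
          rw [hqE, ← ENNReal.ofReal_pow hq0.le, ← ENNReal.ofReal_mul (by positivity),
            ← ENNReal.ofReal_mul (by positivity)]
      _ = ENNReal.ofReal (2 * β * h / q ^ 2 * Real.exp (γ * h) * (Real.exp (γ * h) / κ) ^ m) := by
          rw [E2M_term hq0 hκ hκ0 hmn]
          congr 1
          have : Real.exp (γ * ((m + 1) * h)) = Real.exp (γ * h) * Real.exp (γ * h) ^ m := by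
            rw [← Real.exp_nat_mul, ← Real.exp_add]
            congr 1
            ring
          rw [this, div_pow, inv_pow]
          ring
      _ = _ := by
          rw [ENNReal.ofReal_mul (by positivity), ENNReal.ofReal_pow (by positivity)]
  refine (Finset.sum_le_sum h2).trans ?_
  rw [← Finset.mul_sum, ← ENNReal.tsum_geometric]
  exact mul_le_mul_right (ENNReal.sum_le_tsum _) _

theorem mE2M (hPSUM : St_PSUM) (hM21 : St_M21) (hBLK : St_BLK) (hCNT : St_CNT) : St_E2M := by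
  intro Ω _ P _ β T B hβ hT hB hTB h γ κ gd hh hγ hgd hκ hκ1 hγκ
  set q := (P {ω | blk h (B ω []) 0 ∈ gd}).toReal with hq
  have hκ0 : 0 < κ := by linarith
  have hqE : P {ω | blk h (B ω []) 0 ∈ gd} = ENNReal.ofReal q := by
    rw [hq, ENNReal.ofReal_toReal (measure_ne_top _ _)]
  have hq0 : 0 < q := by
    have : 0 ≤ q := ENNReal.toReal_nonneg
    rcases this.eq_or_lt with h0 | h0
    · rw [← h0, mul_zero] at hκ
      linarith
    · exact h0
  have hfirst : ∀ n : ℕ, ∫⁻ ω, ∑' p : Lab, ind (p ∈ Gd2 h gd n (T ω) (B ω)) ∂P =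
      ENNReal.ofReal (κ ^ n) := by
    intro n
    rw [E2M_first hM21 hBLK hCNT P T B hβ hT hB hTB hh hgd n, hqE, ← ENNReal.ofReal_pow hq0.le,
      ← ENNReal.ofReal_mul (Real.exp_pos _).le, hκ, mul_pow, ← Real.exp_nat_mul]
    congr 3
    ring
  have hTm : Measurable T := measurable_pi_lambda _ hT.meas
  have hBm : Measurable B := measurable_pi_lambda _ hB.meas
  have hTBm : Measurable (fun ω => (T ω, B ω)) := hTm.prodMk hBm
  have hms : ∀ n : ℕ, Measurable (fun ω => ∑' p : Lab, ind (p ∈ Gd2 h gd n (T ω) (B ω))) := by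
    intro n
    exact Measurable.tsum fun p => (measurable_ind (E2M_meas h hgd n p)).comp hTBm
  set A0 : ℝ≥0∞ := ENNReal.ofReal (2 * β * h / q ^ 2 * Real.exp (0 * h)) *
    (1 - ENNReal.ofReal (Real.exp (0 * h) / κ))⁻¹ with hA0
  set A1 : ℝ≥0∞ := ENNReal.ofReal (2 * β * h / q ^ 2 * Real.exp (γ * h)) *
    (1 - ENNReal.ofReal (Real.exp (γ * h) / κ))⁻¹ with hA1
  set A2 : ℝ≥0∞ := ENNReal.ofReal (2 * β * h / q ^ 2 * κ) with hA2
  have hfin : ∀ g : ℝ, Real.exp (g * h) < κ → ENNReal.ofReal (2 * β * h / q ^ 2 *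
      Real.exp (g * h)) * (1 - ENNReal.ofReal (Real.exp (g * h) / κ))⁻¹ ≠ ∞ := by
    intro g hg
    refine ENNReal.mul_ne_top ENNReal.ofReal_ne_top ?_
    rw [ENNReal.inv_ne_top, Ne, tsub_eq_zero_iff_le, not_le, ← ENNReal.ofReal_one]
    exact (ENNReal.ofReal_lt_ofReal_iff one_pos).2 ((div_lt_one hκ0).2 hg)
  have hA0f : A0 ≠ ∞ := hfin 0 (by simpa using hκ1)
  have hA1f : A1 ≠ ∞ := hfin γ hγκ
  refine ⟨1 + A0 + A1 + A2, ?_, ?_⟩
  · exact ENNReal.add_ne_top.2 ⟨ENNReal.add_ne_top.2 ⟨ENNReal.add_ne_top.2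
      ⟨ENNReal.one_ne_top, hA0f⟩, hA1f⟩, ENNReal.ofReal_ne_top⟩
  intro n
  have hκn : 0 < κ ^ n := by positivity
  have e1 : ENNReal.ofReal ((κ ^ n)⁻¹) * ENNReal.ofReal (κ ^ n) = 1 := by
    rw [← ENNReal.ofReal_mul (by positivity), inv_mul_cancel₀ hκn.ne', ENNReal.ofReal_one]
  have e2 : ENNReal.ofReal ((κ ^ n)⁻¹ ^ 2) * ENNReal.ofReal (κ ^ n) =
      ENNReal.ofReal ((κ ^ n)⁻¹) := by
    rw [← ENNReal.ofReal_mul (by positivity)]
    congr 1
    field_simp
  have e3 : ENNReal.ofReal ((κ ^ n)⁻¹) ≤ 1 := by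
    rw [← ENNReal.ofReal_one]
    refine ENNReal.ofReal_le_ofReal ?_
    exact inv_le_one_of_one_le₀ (one_le_pow₀ hκ1.le)
  have hpair := fun (g : ℝ) (hg : 0 ≤ g) =>
    E2M_pair hPSUM P T B hβ hT hB hTB hh hgd hg hκ hκ0 n
  refine ⟨?_, ?_, ?_, ?_⟩
  · unfold Mn
    rw [lintegral_const_mul _ (hms n), hfirst n, e1]
  · have h1 : ∫⁻ ω, Mn κ h gd n (T ω) (B ω) ^ 2 ∂P ≤
        ∫⁻ ω, ENNReal.ofReal ((κ ^ n)⁻¹ ^ 2) *
          ((∑' p : Lab, ind (p ∈ Gd2 h gd n (T ω) (B ω))) +
          ∑' z : Quad, ind (qu z ∈ Gd2 h gd n (T ω) (B ω) ∧ qv z ∈ Gd2 h gd n (T ω) (B ω)) *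
            ENNReal.ofReal (Real.exp (0 * death (T ω) z.1))) ∂P := by
      refine lintegral_mono fun ω => ?_
      unfold Mn
      rw [mul_pow, ← ENNReal.ofReal_pow (by positivity)]
      refine mul_le_mul_right ?_ _
      refine (E2M_square (hT.pos ω) (B ω) h gd n).trans ?_
      simp
    refine h1.trans ?_
    rw [lintegral_const_mul' _ _ ENNReal.ofReal_ne_top, lintegral_add_left (hms n), mul_add,
      hfirst n, e2]
    calc _ ≤ 1 + A0 := add_le_add e3 (hpair 0 le_rfl)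
      _ ≤ _ := by
        rw [add_assoc (1 + A0)]
        exact le_self_add
  · have h1 : ∫⁻ ω, Hn κ γ h gd n (T ω) (B ω) ∂P ≤
        ∫⁻ ω, ENNReal.ofReal ((κ ^ n)⁻¹ ^ 2) *
          ∑' z : Quad, ind (qu z ∈ Gd2 h gd n (T ω) (B ω) ∧ qv z ∈ Gd2 h gd n (T ω) (B ω)) *
            ENNReal.ofReal (Real.exp (γ * death (T ω) z.1)) ∂P := by
      refine lintegral_mono fun ω => ?_
      unfold Hn
      refine mul_le_mul_right ?_ _
      refine ENNReal.tsum_le_tsum fun z => ?_
      refine mul_le_mul_left ?_ _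
      exact ind_mono fun hz => ⟨hz.1, hz.2.1⟩
    refine h1.trans ?_
    rw [lintegral_const_mul' _ _ ENNReal.ofReal_ne_top]
    calc _ ≤ A1 := hpair γ hγ
      _ ≤ _ := by
        rw [add_assoc, add_comm (1 + A0), add_assoc]
        exact le_self_add
  · unfold Nn
    rw [lintegral_const_mul' _ _ ENNReal.ofReal_ne_top, lintegral_add_left (hms n), mul_add,
      hfirst n, e2]
    have h1 := hPSUM Ω P β T B hβ hT hB hTB h gd n
      (fun r => ind (((n : ℝ) - 1) * h ≤ r)) hh hgd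
      (measurable_ind (s := {r : ℝ | ((n : ℝ) - 1) * h ≤ r}) measurableSet_Ici)
    have h2 : ∫⁻ ω, ∑' z : Quad, ind (qu z ∈ Gd2 h gd n (T ω) (B ω) ∧
        qv z ∈ Gd2 h gd n (T ω) (B ω) ∧ ((n : ℝ) - 1) * h ≤ death (T ω) z.1) ∂P =
        ∫⁻ ω, ∑' z : Quad, ind (qu z ∈ Gd2 h gd n (T ω) (B ω) ∧
          qv z ∈ Gd2 h gd n (T ω) (B ω)) * ind (((n : ℝ) - 1) * h ≤ death (T ω) z.1) ∂P := by
      refine lintegral_congr fun ω => tsum_congr fun z => ?_
      rw [← ind_and, and_assoc]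
    rw [h2]
    have h3 : ∀ m ∈ Finset.range n, m + 1 < n →
        (P {ω | blk h (B ω []) 0 ∈ gd}) ^ (m + 2 * (n - m - 1)) *
        ∫⁻ r in Ioc ((m : ℝ) * h) (((m : ℝ) + 1) * h),
          ind (((n : ℝ) - 1) * h ≤ r) *
            ENNReal.ofReal (2 * β * Real.exp (β * (2 * (n * h) - r))) = 0 := by
      intro m _ hmn
      have h4 : ∫⁻ r in Ioc ((m : ℝ) * h) (((m : ℝ) + 1) * h),
          ind (((n : ℝ) - 1) * h ≤ r) *
            ENNReal.ofReal (2 * β * Real.exp (β * (2 * (n * h) - r))) = 0 := by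
        have h5 : ∀ᵐ r ∂(volume.restrict (Ioc ((m : ℝ) * h) (((m : ℝ) + 1) * h))),
            ind (((n : ℝ) - 1) * h ≤ r) *
            ENNReal.ofReal (2 * β * Real.exp (β * (2 * (n * h) - r))) = 0 := by
          have h6 : ∀ᵐ r ∂(volume : Measure ℝ), r ≠ ((m : ℝ) + 1) * h := by
            rw [ae_iff]
            have : {r : ℝ | ¬ r ≠ ((m : ℝ) + 1) * h} = {((m : ℝ) + 1) * h} := by
              ext r
              simp
            rw [this]
            exact measure_singleton _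
          filter_upwards [ae_restrict_of_ae h6, ae_restrict_mem measurableSet_Ioc] with r h7 h8
          rw [ind_false, zero_mul]
          intro h9
          have h10 : ((m : ℝ) + 1) * h ≤ ((n : ℝ) - 1) * h := by
            have : (m : ℝ) + 1 + 1 ≤ n := by exact_mod_cast hmn
            nlinarith
          exact h7 (le_antisymm h8.2 (h10.trans h9))
        rw [lintegral_congr_ae h5, lintegral_zero]
      rw [h4, mul_zero]
    have h4 : ENNReal.ofReal ((κ ^ n)⁻¹ ^ 2) * ∫⁻ ω, ∑' z : Quad,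
        ind (qu z ∈ Gd2 h gd n (T ω) (B ω) ∧ qv z ∈ Gd2 h gd n (T ω) (B ω)) *
          ind (((n : ℝ) - 1) * h ≤ death (T ω) z.1) ∂P ≤ A2 * ENNReal.ofReal ((κ ^ n)⁻¹) := by
      refine (mul_le_mul_right h1 _).trans ?_
      rcases Nat.eq_zero_or_pos n with hn | hn
      · subst hn
        simp
      · obtain ⟨m, rfl⟩ : ∃ m, n = m + 1 := ⟨n - 1, by omega⟩
        rw [Finset.sum_range_succ, Finset.sum_eq_zero, zero_add]
        · have h5 : ∫⁻ r in Ioc ((m : ℝ) * h) (((m : ℝ) + 1) * h),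
              ind ((((m + 1 : ℕ) : ℝ) - 1) * h ≤ r) *
                ENNReal.ofReal (2 * β * Real.exp (β * (2 * (((m + 1 : ℕ) : ℝ) * h) - r))) ≤
              ENNReal.ofReal (1 * (2 * β *
                Real.exp (β * (2 * (((m + 1 : ℕ) : ℝ) * h) - m * h))) * h) := by
            calc _ ≤ ∫⁻ r in Ioc ((m : ℝ) * h) (((m : ℝ) + 1) * h),
                  ENNReal.ofReal (1 * (2 * β *
                    Real.exp (β * (2 * (((m + 1 : ℕ) : ℝ) * h) - m * h)))) := by
                  refine setLIntegral_mono' measurableSet_Ioc fun r hr => ?_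
                  refine (mul_le_mul_left (ind_le_one _) _).trans ?_
                  rw [one_mul, one_mul]
                  refine ENNReal.ofReal_le_ofReal ?_
                  gcongr
                  exact hr.1.le
              _ = _ := by
                  rw [setLIntegral_const, Real.volume_Ioc, ← ENNReal.ofReal_mul (by positivity)]
                  congr 1
                  ring
          calc _ ≤ ENNReal.ofReal ((κ ^ (m + 1))⁻¹ ^ 2) *
              ((P {ω | blk h (B ω []) 0 ∈ gd}) ^ (m + 2 * ((m + 1) - m - 1)) *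
                ENNReal.ofReal (1 * (2 * β *
                Real.exp (β * (2 * (((m + 1 : ℕ) : ℝ) * h) - m * h))) * h)) :=
                mul_le_mul_right (mul_le_mul_right h5 _) _
            _ = ENNReal.ofReal ((κ ^ (m + 1))⁻¹ ^ 2 * (q ^ (m + 2 * ((m + 1) - m - 1)) *
                (1 * (2 * β * Real.exp (β * (2 * (((m + 1 : ℕ) : ℝ) * h) - m * h))) * h))) := by
                rw [hqE, ← ENNReal.ofReal_pow hq0.le, ← ENNReal.ofReal_mul (by positivity),
                  ← ENNReal.ofReal_mul (by positivity)]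
            _ = ENNReal.ofReal (2 * β * h / q ^ 2 * κ * (κ ^ (m + 1))⁻¹) := by
                rw [E2M_term hq0 hκ hκ0 (Nat.lt_succ_self m)]
                congr 1
                rw [pow_succ, inv_pow]
                field_simp
                rw [pow_succ]
            _ = _ := by
                rw [ENNReal.ofReal_mul (by positivity)]
        · intro k hk
          have hk' : k < m := Finset.mem_range.1 hk
          exact h3 k (Finset.mem_range.2 (by omega)) (by omega)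
    calc _ ≤ ENNReal.ofReal ((κ ^ n)⁻¹) + A2 * ENNReal.ofReal ((κ ^ n)⁻¹) :=
          add_le_add le_rfl h4
      _ = (1 + A2) * ENNReal.ofReal ((κ ^ n)⁻¹) := by ring
      _ ≤ _ := by
        refine mul_le_mul_left ?_ _
        have : 1 + A0 + A1 + A2 = (1 + A2) + (A0 + A1) := by ring
        rw [this]
        exact le_self_add

end Pool.Agent.helper71.HB
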