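import Pool.Agent.helper71.MF7b
import Pool.Agent.helper35.MF.Len

set_option autoImplicit false

/-!
# MP_141f81: the group generated by the letters of cleaned rows (abstract part)

`D` is a coarse set (`CoarseF`) for the relators `T`, `φ` a homomorphism to a group `U` which vanishes on `T`, `P` a set
of letters of `D` on which `φ` is at most `C`-to-one, and words `f + sy p` (`f ∈ D`, `p ∈ P`) fall in at most `Kd n`
classes.  Then `D ∩ ker φ` has boundedly many classes; hence (chains at one scale) every element of `D` in the span of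
`T` is a sum of boundedly many elements of `T`, and the group generated by the letters modulo the span of `T` is finite
of size at most `Kd n` and maps to `U` with bounded kernel.
-/

namespace Pool.Agent.helper71.Inj0

open Finset
open Pool.Agent.helper35.MF
open Pool.Agent.helper71.MF7b (max_sep Nrm nrm_ball)

/-- a bounded monotone sequence is stationary somewhere -/
theorem exists_stable (f : ℕ → ℕ) (hf : ∀ j, f j ≤ f (j + 1)) (M : ℕ) (hM : ∀ j, f j ≤ M) :
    ∃ j, j ≤ M ∧ f (j + 1) = f j := by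
  by_contra hcon
  push Not at hcon
  have h1 : ∀ j, j ≤ M + 1 → j ≤ f j := by
    intro j
    induction j with
    | zero => exact fun _ => Nat.zero_le _
    | succ j ih =>
      intro hj
      have h2 := ih (by omega)
      have h3 := hcon j (by omega)
      have h4 := hf j
      omega
  have h2 := h1 (M + 1) le_rfl
  have h3 := hM (M + 1)
  omega

section

variable {X : Type} {T : Set (X →₀ ZMod 2)} {D F : Set (X →₀ ZMod 2)} {κ l1 l0 : ℕ}

theorem ball_closure {r : ℕ} {g : X →₀ ZMod 2} (hg : g ∈ Ball T r) : g ∈ AddSubgroup.closure T := by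
  obtain ⟨l, -, h2, rfl⟩ := hg
  exact AddSubgroup.list_sum_mem _ fun x hx => AddSubgroup.subset_closure (h2 x hx)

/-- chains through few classes are short -/
theorem chain_bound (E : Finset (X →₀ ZMod 2)) (b R M : ℕ) (hE : E.card ≤ M)
    (hcen : ∀ x ∈ D, x ∈ AddSubgroup.closure T → ∃ e ∈ E, x + e ∈ Ball T b) (h0 : (0 : X →₀ ZMod 2) ∈ D)
    {k : ℕ} {w : X →₀ ZMod 2} (hw : Rc (Stp T D R) k 0 w) : w ∈ Ball T (2 * b + M * (R + 2 * b)) := by
  classical
  let Ej : ℕ → Finset (X →₀ ZMod 2) := fun j => E.filter fun e => e ∈ Ball T (b + j * (R + 2 * b))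
  have hmono : ∀ j, Ej j ⊆ Ej (j + 1) := by
    intro j e he
    obtain ⟨h1, h2⟩ := Finset.mem_filter.mp he
    exact Finset.mem_filter.mpr ⟨h1, Ball.mono (by have := Nat.succ_mul j (R + 2 * b); rw [Nat.succ_eq_add_one] at this; omega) h2⟩
  obtain ⟨j, hj, hst⟩ := exists_stable (fun j => (Ej j).card) (fun j => Finset.card_le_card (hmono j)) M
    (fun j => (Finset.card_filter_le _ _).trans hE)
  have hst' : Ej j = Ej (j + 1) := Finset.eq_of_subset_of_card_le (hmono j) hst.le
  have key : ∀ (k : ℕ) (a : X →₀ ZMod 2), a ∈ D → a ∈ AddSubgroup.closure T →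
      (∃ e ∈ Ej j, a + e ∈ Ball T b) → Rc (Stp T D R) k a w → ∃ e ∈ Ej j, w + e ∈ Ball T b := by
    intro k
    induction k with
    | zero =>
      intro a _ _ ha hR
      obtain rfl : a = w := hR
      exact ha
    | succ k ih =>
      intro a haD haT ha hR
      obtain ⟨c, hc, hR'⟩ := hR
      have step : ∀ c, c ∈ D → a + c ∈ Ball T R → c ∈ AddSubgroup.closure T ∧ ∃ e ∈ Ej j, c + e ∈ Ball T b := by
        intro c hcD hac
        have h1 : c ∈ AddSubgroup.closure T := by
          have h2 := add_mem haT (ball_closure hac)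
          have h3 : a + (a + c) = c := by
            rw [← add_assoc, two_eq, zero_add]
          rwa [h3] at h2
        refine ⟨h1, ?_⟩
        obtain ⟨e', he', hce'⟩ := hcen c hcD h1
        obtain ⟨e, he, hae⟩ := ha
        refine ⟨e', ?_, hce'⟩
        rw [hst', Finset.mem_filter]
        refine ⟨he', ?_⟩
        have h2 := (Finset.mem_filter.mp he).2
        have h3 : e' = (c + e') + (a + c) + (a + e) + e := by
          have h4 : (c + e') + (a + c) + (a + e) + e = e' + (a + a) + (c + c) + (e + e) := by abel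
          rw [h4, two_eq, two_eq, two_eq, add_zero, add_zero, add_zero]
        rw [h3]
        exact Ball.mono (by have := Nat.succ_mul j (R + 2 * b); rw [Nat.succ_eq_add_one] at this; omega) (ball_add (ball_add (ball_add hce' hac) hae) h2)
      rcases hc with rfl | hc | hc
      · exact ih a haD haT ha hR'
      · obtain ⟨h1, h2⟩ := step c hc.2.1 hc.2.2
        exact ih c hc.2.1 h1 h2 hR'
      · obtain ⟨h1, h2⟩ := step c hc.1 (by rw [add_comm]; exact hc.2.2)
        exact ih c hc.1 h1 h2 hR'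
  obtain ⟨e0, he0, h1⟩ := hcen 0 h0 (zero_mem _)
  rw [zero_add] at h1
  obtain ⟨e, he, hwe⟩ := key k 0 h0 (zero_mem _) ⟨e0, Finset.mem_filter.mpr ⟨he0, Ball.mono (by omega) h1⟩,
    by rw [zero_add]; exact h1⟩ hw
  have h2 := (Finset.mem_filter.mp he).2
  have h3 : w = (w + e) + e := by rw [add_assoc, two_eq, add_zero]
  rw [h3]
  have h4 : j * (R + 2 * b) ≤ M * (R + 2 * b) := Nat.mul_le_mul_right _ hj
  exact Ball.mono (by omega) (ball_add hwe h2)

variable {U : Type} [AddCommGroup U] (φ : (X →₀ ZMod 2) →+ U) (P : Finset X) (n a b3 Kd C : ℕ)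

/-- the counting hypotheses -/
structure Num (T D : Set (X →₀ ZMod 2)) : Prop where
  pos : 0 < n
  van : ∀ t ∈ T, φ t = 0
  PD : ∀ p ∈ P, sy p ∈ D
  big : n ≤ P.card * a
  cons : ∀ p ∈ P, ∀ Q : Finset X, Q ⊆ P → (∀ q ∈ Q, φ (sy p) = φ (sy q)) → Q.card ≤ C
  covD : ∀ W : Finset (X →₀ ZMod 2), (∀ w ∈ W, ∃ f ∈ D, ∃ p ∈ P, w = f + sy p) →
      (∀ w ∈ W, ∀ w' ∈ W, w ≠ w' → w + w' ∉ Ball T b3) → W.card ≤ Kd * n

variable {φ P n a b3 Kd C}

theorem Num.van' (hN : Num φ P n a b3 Kd C T D) {g : X →₀ ZMod 2} (hg : g ∈ AddSubgroup.closure T) : φ g = 0 := by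
  have h1 : AddSubgroup.closure T ≤ φ.ker := by
    rw [AddSubgroup.closure_le]
    exact fun t ht => hN.van t ht
  exact h1 hg

/-- few classes in `D ∩ ker φ` -/
theorem Num.few (hN : Num φ P n a b3 Kd C T D) (E : Finset (X →₀ ZMod 2)) (hED : ∀ e ∈ E, e ∈ D)
    (hEφ : ∀ e ∈ E, φ e = 0) (hEs : ∀ e ∈ E, ∀ e' ∈ E, e ≠ e' → e + e' ∉ Ball T b3) : E.card ≤ Kd * a * C := by
  classical
  -- representatives of the values of `φ` on `P`
  obtain ⟨Q, _, hQP, hQs, hQm⟩ := max_sep (↑P : Set X) (fun p q => φ (sy p) = φ (sy q))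
    (fun x y h => h.symm) P.card (fun F hF _ => Finset.card_le_card (fun x hx => hF x hx))
  have hQP' : Q ⊆ P := fun x hx => hQP x hx
  have hPQ : P.card ≤ Q.card * C := by
    have h1 : P ⊆ Q.biUnion fun f => P.filter fun q => φ (sy f) = φ (sy q) := by
      intro x hx
      obtain ⟨f, hf, hfx⟩ := hQm x hx
      rw [Finset.mem_biUnion]
      refine ⟨f, hf, Finset.mem_filter.mpr ⟨hx, ?_⟩⟩
      rcases hfx with rfl | hfx
      · rfl
      · exact hfx.symm
    refine (Finset.card_le_card h1).trans (Finset.card_biUnion_le_card_mul _ _ _ fun f hf => ?_)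
    exact hN.cons f (hQP' hf) _ (Finset.filter_subset _ _) fun q hq => (Finset.mem_filter.mp hq).2
  have hadd : ∀ (e e' : X →₀ ZMod 2), φ e = 0 → φ e' = 0 → ∀ q ∈ Q, ∀ q' ∈ Q, q ≠ q' → ∀ r,
      e + sy q + (e' + sy q') ∉ Ball T r := by
    intro e e' he he' q hq q' hq' hne r hr
    have h1 := hN.van' (ball_closure hr)
    rw [map_add, map_add, map_add, he, he', zero_add, zero_add] at h1
    apply hQs q hq q' hq' hne
    have h2 : φ (sy q') + φ (sy q') = 0 := by rw [← map_add, two_eq, map_zero]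
    rw [← sub_eq_zero, sub_eq_add_neg, neg_eq_of_add_eq_zero_left h2]
    exact h1
  have hinj : Set.InjOn (fun eq : (X →₀ ZMod 2) × X => eq.1 + sy eq.2)
      (E ×ˢ Q : Finset ((X →₀ ZMod 2) × X)) := by
    rintro ⟨e, q⟩ h1 ⟨e', q'⟩ h2 h3
    rw [Finset.mem_coe, Finset.mem_product] at h1 h2
    dsimp only at h1 h2 h3
    have hqq : q = q' := by
      by_contra hne
      have h4 := hadd e e' (hEφ e h1.1) (hEφ e' h2.1) q h1.2 q' h2.2 hne 0
      rw [h3, two_eq] at h4
      exact h4 (Ball.zero T 0)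
    rw [hqq] at h3
    rw [hqq, add_right_cancel h3]
  have hW := hN.covD ((E ×ˢ Q).image fun eq : (X →₀ ZMod 2) × X => eq.1 + sy eq.2) (fun w hw => by
      obtain ⟨⟨e, q⟩, h1, rfl⟩ := Finset.mem_image.mp hw
      rw [Finset.mem_product] at h1
      exact ⟨e, hED e h1.1, q, hQP' h1.2, rfl⟩)
    (fun w hw w' hw' hne => by
      obtain ⟨⟨e, q⟩, h1, rfl⟩ := Finset.mem_image.mp hw
      obtain ⟨⟨e', q'⟩, h2, rfl⟩ := Finset.mem_image.mp hw'
      rw [Finset.mem_product] at h1 h2
      dsimp only at h1 h2 hne ⊢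
      by_cases hqq : q = q'
      · subst hqq
        have hee : e ≠ e' := fun h3 => hne (by rw [h3])
        have h4 : e + sy q + (e' + sy q) = e + e' + (sy q + sy q) := by abel
        rw [h4, two_eq, add_zero]
        exact hEs e h1.1 e' h2.1 hee
      · exact hadd e e' (hEφ e h1.1) (hEφ e' h2.1) q h1.2 q' h2.2 hqq b3)
  rw [Finset.card_image_of_injOn hinj, Finset.card_product] at hW
  have hQpos : 0 < Q.card := by
    by_contra hcon
    have h0 : Q.card = 0 := by omega
    rw [h0, zero_mul] at hPQ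
    have h1 : P.card = 0 := by omega
    have h2 := hN.big
    have h3 := hN.pos
    rw [h1, zero_mul] at h2
    omega
  have h5 : Q.card * E.card ≤ Q.card * (Kd * a * C) := by
    calc Q.card * E.card = E.card * Q.card := mul_comm _ _
      _ ≤ Kd * n := hW
      _ ≤ Kd * (P.card * a) := Nat.mul_le_mul_left _ hN.big
      _ ≤ Kd * (Q.card * C * a) := Nat.mul_le_mul_left _ (Nat.mul_le_mul_right _ hPQ)
      _ = _ := by ring
  exact Nat.le_of_mul_le_mul_left h5 hQpos

/-- the radius of `bounded_norm` -/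
def cB (κ l1 a b3 Kd C : ℕ) : ℕ := 2 * b3 + Kd * a * C * ((l1 + 6) * κ + 1 + 2 * b3)

/-- **Bounded norm.** -/
theorem bounded_norm (h : CoarseF T D F κ l1 l0) (hN : Num φ P n a b3 Kd C T D) {w : X →₀ ZMod 2} (hw : w ∈ D)
    (hwT : w ∈ AddSubgroup.closure T) : w ∈ Ball T (cB κ l1 a b3 Kd C) := by
  obtain ⟨E, hEc, hE1, hE2, hE3⟩ := max_sep {x : X →₀ ZMod 2 | x ∈ D ∧ x ∈ AddSubgroup.closure T}
    (fun x y => x + y ∈ Ball T b3) (fun x y hxy => by rwa [add_comm]) (Kd * a * C)
    (fun E h1 h2 => hN.few E (fun e he => (h1 e he).1) (fun e he => hN.van' (h1 e he).2) h2)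
  obtain ⟨k, hk⟩ := h.chain h.zero hw (by rw [zero_add]; exact hwT)
  refine chain_bound E b3 ((l1 + 6) * κ + 1) (Kd * a * C) hEc (fun x hx hxT => ?_) h.zero hk
  obtain ⟨f, hf, hfx⟩ := hE3 x ⟨hx, hxT⟩
  refine ⟨f, hf, ?_⟩
  rcases hfx with rfl | hfx
  · rw [two_eq]
    exact Ball.zero T b3
  · exact hfx

/-- bounded norm for words -/
theorem bounded_word (h : CoarseF T D F κ l1 l0) (hN : Num φ P n a b3 Kd C T D) (l : List X)
    (hl : ∀ x ∈ l, sy x ∈ D) (hwT : wd l ∈ AddSubgroup.closure T) :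
    wd l ∈ Ball T (l.length * κ + cB κ l1 a b3 Kd C) := by
  have h1 := h.ev_ball l hl
  have h2 : (h.ev l : X →₀ ZMod 2) ∈ AddSubgroup.closure T := by
    have h3 := add_mem hwT (ball_closure h1)
    rwa [← add_assoc, two_eq, zero_add] at h3
  have h3 := bounded_norm h hN (h.ev l).2 h2
  have h4 : wd l = wd l + h.ev l + h.ev l := by rw [add_assoc, two_eq, add_zero]
  rw [h4]
  exact ball_add h1 h3

/-! ### the group -/

/-- the group generated by the letters of `D` modulo the span of `T` -/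
noncomputable def U0 (T D : Set (X →₀ ZMod 2)) : AddSubgroup ((X →₀ ZMod 2) ⧸ AddSubgroup.closure T) :=
  (AddSubgroup.closure {g | ∃ x, sy x ∈ D ∧ g = sy x}).map (QuotientAddGroup.mk' (AddSubgroup.closure T))

theorem wd_mem {l : List X} (hl : ∀ x ∈ l, sy x ∈ D) :
    (QuotientAddGroup.mk (wd l) : (X →₀ ZMod 2) ⧸ AddSubgroup.closure T) ∈ U0 T D := by
  refine ⟨wd l, ?_, rfl⟩
  refine AddSubgroup.list_sum_mem _ fun g hg => ?_
  obtain ⟨x, hx, rfl⟩ := List.mem_map.mp hg
  exact AddSubgroup.subset_closure ⟨x, hl x hx, rfl⟩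

theorem mk_eq {g g' : X →₀ ZMod 2} (h : (QuotientAddGroup.mk g : (X →₀ ZMod 2) ⧸ AddSubgroup.closure T) =
    QuotientAddGroup.mk g') : g + g' ∈ AddSubgroup.closure T := by
  have h1 := QuotientAddGroup.eq.mp h
  rwa [neg_eq_of_add_eq_zero_left (two_eq g)] at h1

theorem mk_eq' {g g' : X →₀ ZMod 2} (h : g + g' ∈ AddSubgroup.closure T) :
    (QuotientAddGroup.mk g : (X →₀ ZMod 2) ⧸ AddSubgroup.closure T) = QuotientAddGroup.mk g' := by
  refine QuotientAddGroup.eq.mpr ?_
  rwa [neg_eq_of_add_eq_zero_left (two_eq g)]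

open Classical in
/-- the value of a letter -/
noncomputable def p0 (T D : Set (X →₀ ZMod 2)) (x : X) : U0 T D :=
  if hx : sy x ∈ D then ⟨QuotientAddGroup.mk (sy x), ⟨sy x, AddSubgroup.subset_closure ⟨x, hx, rfl⟩, rfl⟩⟩ else 0

theorem p0_coe {x : X} (hx : sy x ∈ D) : (p0 T D x : (X →₀ ZMod 2) ⧸ AddSubgroup.closure T) =
    QuotientAddGroup.mk (sy x) := by
  rw [p0, dif_pos hx]

theorem p0_sum (l : List X) (hl : ∀ x ∈ l, sy x ∈ D) :
    ((l.map (p0 T D)).sum : (X →₀ ZMod 2) ⧸ AddSubgroup.closure T) = QuotientAddGroup.mk (wd l) := by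
  induction l with
  | nil => rfl
  | cons x l ih =>
    have h1 := ih fun y hy => hl y (List.mem_cons_of_mem _ hy)
    have h2 := p0_coe (T := T) (hl x List.mem_cons_self)
    rw [List.map_cons, List.sum_cons, AddSubgroup.coe_add, h1, h2]
    show _ = QuotientAddGroup.mk (((x :: l).map sy).sum)
    rw [List.map_cons, List.sum_cons]
    rfl

/-- every element is the class of an element of `D` -/
theorem exists_D (h : CoarseF T D F κ l1 l0) (u : U0 T D) :
    ∃ d ∈ D, (u : (X →₀ ZMod 2) ⧸ AddSubgroup.closure T) = QuotientAddGroup.mk d := by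
  obtain ⟨u, g, hg, rfl⟩ := u
  have h1 : ∀ g ∈ AddSubgroup.closure {g : X →₀ ZMod 2 | ∃ x, sy x ∈ D ∧ g = sy x},
      ∃ l : List X, (∀ x ∈ l, sy x ∈ D) ∧ g = wd l := by
    intro g hg
    induction hg using AddSubgroup.closure_induction with
    | mem g hg =>
      obtain ⟨x, hx, rfl⟩ := hg
      exact ⟨[x], fun y hy => by rw [List.mem_singleton.mp hy]; exact hx,
        by rw [wd, List.map_singleton, List.sum_singleton]⟩
    | zero => exact ⟨[], by simp, rfl⟩
    | add g g' _ _ ih1 ih2 =>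
      obtain ⟨l, h1, h2⟩ := ih1
      obtain ⟨l', h1', h2'⟩ := ih2
      refine ⟨l ++ l', fun x hx => ?_, ?_⟩
      · rcases List.mem_append.mp hx with hx | hx
        · exact h1 x hx
        · exact h1' x hx
      · rw [h2, h2', wd, wd, wd, List.map_append, List.sum_append]
    | neg g _ ih =>
      obtain ⟨l, h1, h2⟩ := ih
      exact ⟨l, h1, by rw [neg_eq_of_add_eq_zero_left (two_eq g)]; exact h2⟩
  obtain ⟨l, hl, rfl⟩ := h1 g hg
  exact ⟨h.ev l, (h.ev l).2, mk_eq' (ball_closure (h.ev_ball l hl))⟩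

theorem word_D (h : CoarseF T D F κ l1 l0) {d : X →₀ ZMod 2} (hd : d ∈ D) :
    ∃ l : List X, l.length ≤ wl l1 l0 ∧ (∀ x ∈ l, sy x ∈ D) ∧ wd l = d := by
  obtain ⟨l, h1, h2, -, fs, h3, h4, h5⟩ := h.word d hd
  have key : ∀ fs : List (X →₀ ZMod 2), (∀ f ∈ fs, f ∈ F) →
      ∃ l' : List X, l'.length ≤ fs.length * l1 ∧ (∀ x ∈ l', sy x ∈ D) ∧ wd l' = fs.sum := by
    intro fs
    induction fs with
    | nil => exact fun _ => ⟨[], by simp, by simp, rfl⟩
    | cons f fs ih =>
      intro hf
      obtain ⟨l', k1, k2, k3⟩ := ih fun g hg => hf g (List.mem_cons_of_mem _ hg)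
      obtain ⟨-, l'', k4, k5, k6⟩ := h.short f (hf f List.mem_cons_self)
      refine ⟨l'' ++ l', ?_, fun x hx => ?_, ?_⟩
      · rw [List.length_append, List.length_cons, Nat.succ_mul]
        omega
      · rcases List.mem_append.mp hx with hx | hx
        · exact k5 x hx
        · exact k2 x hx
      · rw [List.sum_cons, ← k3, k6, wd, wd, wd, List.map_append, List.sum_append]
  obtain ⟨l', k1, k2, k3⟩ := key fs h4
  refine ⟨l ++ l', ?_, fun x hx => ?_, ?_⟩
  · have := Nat.mul_le_mul_right l1 h3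
    rw [List.length_append, wl]
    omega
  · rcases List.mem_append.mp hx with hx | hx
    · exact h2 x hx
    · exact k2 x hx
  · rw [h5, ← k3, wd, wd, wd, List.map_append, List.sum_append]

/-- every element is the value of a short word -/
theorem exists_word (h : CoarseF T D F κ l1 l0) (u : U0 T D) :
    ∃ l : List X, l.length ≤ wl l1 l0 ∧ (∀ x ∈ l, sy x ∈ D) ∧ (l.map (p0 T D)).sum = u := by
  obtain ⟨d, hd, hu⟩ := exists_D h u
  obtain ⟨l, h1, h2, h3⟩ := word_D h hd
  refine ⟨l, h1, h2, Subtype.ext ?_⟩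
  rw [p0_sum l h2, h3, hu]

/-- a type with finite sets of bounded size is finite -/
theorem finite_of {α : Type*} (M : ℕ) (h : ∀ E : Finset α, E.card ≤ M) : Finite α ∧ Nat.card α ≤ M := by
  have h1 : Finite α := by
    by_contra hcon
    rw [not_finite_iff_infinite] at hcon
    obtain ⟨s, hs⟩ := Infinite.exists_subset_card_eq α (M + 1)
    have := h s
    omega
  refine ⟨h1, ?_⟩
  have := Fintype.ofFinite α
  rw [Nat.card_eq_fintype_card]
  exact h Finset.univ

/-- the size of the group -/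
theorem U0_card (h : CoarseF T D F κ l1 l0) (hN : Num φ P n a b3 Kd C T D) :
    Finite (U0 T D) ∧ Nat.card (U0 T D) ≤ Kd * n := by
  classical
  refine finite_of _ fun E => ?_
  choose d hd hu using exists_D h
  have hP : P.Nonempty := by
    rw [← Finset.card_pos]
    by_contra hcon
    have h0 : P.card = 0 := by omega
    have h1 := hN.big
    have h2 := hN.pos
    rw [h0, zero_mul] at h1
    omega
  obtain ⟨p, hp⟩ := hP
  have hinj : Set.InjOn (fun e : U0 T D => d e + sy p) (E : Set (U0 T D)) := by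
    intro e _ e' _ hee
    apply Subtype.ext
    rw [hu e, hu e', add_right_cancel hee]
  have h1 := hN.covD (E.image fun e => d e + sy p) (fun w hw => by
      obtain ⟨e, he, rfl⟩ := Finset.mem_image.mp hw
      exact ⟨d e, hd e, p, hp, rfl⟩) (fun w hw w' hw' hne => by
      obtain ⟨e, he, rfl⟩ := Finset.mem_image.mp hw
      obtain ⟨e', he', rfl⟩ := Finset.mem_image.mp hw'
      intro hb
      apply hne
      have h2 : d e + sy p + (d e' + sy p) = d e + d e' + (sy p + sy p) := by abel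
      rw [h2, two_eq, add_zero] at hb
      have h3 : e = e' := by
        apply Subtype.ext
        rw [hu e, hu e']
        exact mk_eq' (ball_closure hb)
      rw [h3])
  rwa [Finset.card_image_of_injOn hinj] at h1

/-- the map to `U` -/
noncomputable def kap0 (hN : Num φ P n a b3 Kd C T D) : U0 T D →+ U :=
  (QuotientAddGroup.lift (AddSubgroup.closure T) φ fun _ hg => hN.van' hg).comp (U0 T D).subtype

theorem kap0_mk (hN : Num φ P n a b3 Kd C T D) (u : U0 T D) (g : X →₀ ZMod 2)
    (h : (u : (X →₀ ZMod 2) ⧸ AddSubgroup.closure T) = QuotientAddGroup.mk g) : kap0 hN u = φ g := by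
  show QuotientAddGroup.lift (AddSubgroup.closure T) φ (fun _ hg => hN.van' hg)
    (u : (X →₀ ZMod 2) ⧸ AddSubgroup.closure T) = φ g
  rw [h]
  rfl

/-- the kernel is bounded -/
theorem ker_card (h : CoarseF T D F κ l1 l0) (hN : Num φ P n a b3 Kd C T D) :
    Nat.card (kap0 hN).ker ≤ Kd * a * C := by
  classical
  refine (finite_of _ fun E => ?_).2
  choose d hd hu using exists_D h
  have hinj : Set.InjOn (fun e : (kap0 hN).ker => d e) (E : Set (kap0 hN).ker) := by
    intro e _ e' _ hee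
    apply Subtype.ext
    apply Subtype.ext
    rw [hu e, hu e']
    exact congrArg _ hee
  have h1 := hN.few (E.image fun e : (kap0 hN).ker => d e) (fun w hw => by
      obtain ⟨e, he, rfl⟩ := Finset.mem_image.mp hw
      exact hd e) (fun w hw => by
      obtain ⟨e, he, rfl⟩ := Finset.mem_image.mp hw
      rw [← kap0_mk hN e (d e) (hu e)]
      exact e.2) (fun w hw w' hw' hne => by
      obtain ⟨e, he, rfl⟩ := Finset.mem_image.mp hw
      obtain ⟨e', he', rfl⟩ := Finset.mem_image.mp hw'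
      intro hb
      apply hne
      have h3 : e = e' := by
        apply Subtype.ext
        apply Subtype.ext
        rw [hu e, hu e']
        exact mk_eq' (ball_closure hb)
      rw [h3])
  rwa [Finset.card_image_of_injOn hinj] at h1

/-- the range is large -/
theorem range_card [Finite U] (hN : Num φ P n a b3 Kd C T D) : n ≤ a * C * Nat.card (kap0 hN).range := by
  classical
  have h1 : P.card ≤ C * (P.image fun p => φ (sy p)).card := by
    refine Finset.card_le_mul_card_image _ _ fun g hg => ?_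
    obtain ⟨p, hp, rfl⟩ := Finset.mem_image.mp hg
    exact hN.cons p hp _ (Finset.filter_subset _ _) fun q hq => (Finset.mem_filter.mp hq).2.symm
  have h2 : (P.image fun p => φ (sy p)).card ≤ Nat.card (kap0 hN).range := by
    have h3 : ((P.image fun p => φ (sy p) : Finset U) : Set U) ⊆ ((kap0 hN).range : Set U) := by
      intro g hg
      obtain ⟨p, hp, rfl⟩ := Finset.mem_image.mp (Finset.mem_coe.mp hg)
      exact ⟨p0 T D p, kap0_mk hN _ _ (p0_coe (hN.PD p hp))⟩
    have h4 := Set.ncard_le_ncard h3 (Set.toFinite _)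
    rw [Set.ncard_coe_finset] at h4
    exact h4.trans (le_of_eq (Nat.card_coe_set_eq _).symm)
  calc n ≤ P.card * a := hN.big
    _ ≤ C * Nat.card (kap0 hN).range * a :=
      Nat.mul_le_mul_right _ (h1.trans (Nat.mul_le_mul_left _ h2))
    _ = _ := by ring

/-- **The group of the cleaned rows, abstract form.** -/
theorem inj0_abs [Finite U] (h : CoarseF T D F κ l1 l0) (hN : Num φ P n a b3 Kd C T D) :
    ∃ (H : Type) (_ : AddCommGroup H) (_ : Fintype H) (_ : DecidableEq H) (π0 : X → H) (kap : H →+ U),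
      (∀ u : H, u + u = 0) ∧
      (∀ x, sy x ∉ D → π0 x = 0) ∧
      (∀ x, sy x ∈ D → kap (π0 x) = φ (sy x)) ∧
      (∀ l : List X, (∀ x ∈ l, sy x ∈ D) → wd l ∈ AddSubgroup.closure T → (l.map π0).sum = 0) ∧
      (∀ l : List X, (∀ x ∈ l, sy x ∈ D) → (l.map π0).sum = 0 →
        wd l ∈ Ball T (l.length * κ + cB κ l1 a b3 Kd C)) ∧
      (∀ u : H, ∃ l : List X, l.length ≤ wl l1 l0 ∧ (∀ x ∈ l, sy x ∈ D) ∧ (l.map π0).sum = u) ∧
      Fintype.card H ≤ Kd * n ∧
      Nat.card kap.ker ≤ Kd * a * C ∧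
      n ≤ a * C * Nat.card kap.range := by
  classical
  obtain ⟨hfin, hcard⟩ := U0_card h hN
  let hft : Fintype (U0 T D) := Fintype.ofFinite _
  refine ⟨U0 T D, inferInstance, hft, Classical.decEq _, p0 T D, kap0 hN, ?_, ?_, ?_, ?_, ?_,
    exists_word h, ?_, ker_card h hN, range_card hN⟩
  · rintro ⟨u, g, -, rfl⟩
    apply Subtype.ext
    show (QuotientAddGroup.mk g : (X →₀ ZMod 2) ⧸ AddSubgroup.closure T) + QuotientAddGroup.mk g = 0
    rw [← QuotientAddGroup.mk_add, two_eq]
    rfl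
  · intro x hx
    rw [p0, dif_neg hx]
  · intro x hx
    exact kap0_mk hN _ _ (p0_coe hx)
  · intro l hl hT
    apply Subtype.ext
    rw [p0_sum l hl]
    exact (QuotientAddGroup.eq_zero_iff _).mpr hT
  · intro l hl h0
    refine bounded_word h hN l hl ?_
    have h1 : ((l.map (p0 T D)).sum : (X →₀ ZMod 2) ⧸ AddSubgroup.closure T) = 0 := by
      rw [h0]
      rfl
    rw [p0_sum l hl] at h1
    exact (QuotientAddGroup.eq_zero_iff _).mp h1
  · rw [← Nat.card_eq_fintype_card]
    exact hcard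

end

end Pool.Agent.helper71.Inj0
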